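import Pool.Agent.Work.MP_0d53be_an.Full.Q.Fam
import Pool.Agent.Work.MP_0d53be_an.Full.X.Ev

/-!
# Q/Phi: the connection form of the family `exp (S c) y`

`H` complex Hilbert space, `Fam T B S` with `‖T‖ ≤ 1/10`, `y ≠ 0`. `Phi S y c = exp (S c) y`,
`tht S y i c = alp (Phi c) (S (vv i) (Phi c))` with `alp G K = Im ⟪G, K⟫/‖G‖²`.

* `fam_commute`: `S c` and `S c'` commute: both are norm limits of polynomials in `T`
  (`HasSum` of powers of `T`; `Commute` passes to sums and limits).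
* `Phi_ne`: `exp (S c)` is invertible (`NormedSpace.exp_neg`, or `isUnit_exp`).
* `Phi_add`: `Phi (c + c') = exp (S c') (Phi c)` (`exp_add_of_commute`).
* `Phi_fderiv`: `c ↦ exp (S c)` is `C^∞` (real): `exp` is analytic (`NormedSpace.exp_analytic`,
  restrict scalars to `ℝ`), `S` is a linear map between a finite dimensional space and a normed
  space, hence continuous linear (`LinearMap.toContinuousLinearMap`). The derivative at `c` in
  the direction `u` is `S u (Phi c)`: along the line `t ↦ c + t u`,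
  `exp (S c + t S u) = exp (t S u) exp (S c)`, and `hasDerivAt_exp_smul_const`.
* `tht_contDiff`: composition (inner products, norm squares, division by `‖Phi c‖² ≠ 0`).
* `omg_eq`: by the product rule, as in `hasDerivAt_alp` (file `../Stokes.lean`):
  the derivative of `alp (Phi) (S_j Phi)` in the direction `vv i` is the expression in
  `hasDerivAt_alp` with `f' = S_i Phi`, `g' = S_j S_i Phi`; the difference is given by the identity
  `curv` with `G = Phi c`, `A = S_i Phi c`, `B = S_j Phi c`, `C = S_i S_j Phi c = S_j S_i Phi c`.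
* `tht_le`: `|Im ⟪G, K⟫| ≤ ‖G‖‖K‖`, `‖S (vv i)‖ ≤ 1`.
-/

set_option autoImplicit false

namespace Pool.Agent.Work.MP_0d53be_an.Full

variable {H : Type*} [NormedAddCommGroup H] [InnerProductSpace ℂ H] [CompleteSpace H]

/-- The family of vectors. -/
noncomputable def Phi (S : ℂ × ℂ →ₗ[ℝ] (H →L[ℂ] H)) (y : H) (c : ℂ × ℂ) : H :=
  (NormedSpace.exp (S c)) y

/-- The components of the connection form. -/
noncomputable def tht (S : ℂ × ℂ →ₗ[ℝ] (H →L[ℂ] H)) (y : H) (i : Fin 4) (c : ℂ × ℂ) : ℝ :=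
  alp (Phi S y c) (S (vv i) (Phi S y c))

variable {T : H →L[ℂ] H} {B : ℝ} {S : ℂ × ℂ →ₗ[ℝ] (H →L[ℂ] H)}

omit [CompleteSpace H] in
private theorem phi_com (hS : Fam T B S) {X : H →L[ℂ] H} (hX : Commute X T) (c : ℂ × ℂ) : Commute X (S c) := by
  obtain ⟨τ, -, hs⟩ := hS
  have h1 := (hs c).mul_left X
  have h2 := (hs c).mul_right X
  have h3 : (fun n => X * (τ n c • T ^ (n + 3))) = fun n => (τ n c • T ^ (n + 3)) * X := by
    funext n
    rw [mul_smul_comm, smul_mul_assoc, (hX.pow_right (n + 3)).eq]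
  rw [h3] at h1
  have h4 : Commute X (S c - (c.1 • T + c.2 • T ^ 2)) := h1.unique h2
  have h5 : Commute X (c.1 • T + c.2 • T ^ 2) :=
    (hX.smul_right c.1).add_right ((hX.pow_right 2).smul_right c.2)
  have h6 := h4.add_right h5
  rwa [sub_add_cancel] at h6

omit [CompleteSpace H] in
theorem fam_commute (hS : Fam T B S) (c c' : ℂ × ℂ) : Commute (S c) (S c') :=
  phi_com hS (phi_com hS (Commute.refl T) c).symm c'

private theorem phi_exp_add {X Y : H →L[ℂ] H} (h : Commute X Y) :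
    NormedSpace.exp (X + Y) = NormedSpace.exp X * NormedSpace.exp Y := by
  letI : NormedAlgebra ℚ (H →L[ℂ] H) := NormedAlgebra.restrictScalars ℚ ℂ (H →L[ℂ] H)
  exact NormedSpace.exp_add_of_commute h

theorem Phi_add (hS : Fam T B S) (y : H) (c c' : ℂ × ℂ) :
    Phi S y (c + c') = (NormedSpace.exp (S c')) (Phi S y c) := by
  unfold Phi
  rw [add_comm, map_add, phi_exp_add (fam_commute hS c' c)]
  rfl

theorem Phi_ne (hS : Fam T B S) {y : H} (hy : y ≠ 0) (c : ℂ × ℂ) : Phi S y c ≠ 0 := by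
  intro h0
  apply hy
  have h1 := Phi_add hS y c (-c)
  rw [h0, map_zero, add_neg_cancel] at h1
  have h2 : Phi S y 0 = y := by
    unfold Phi
    rw [map_zero, NormedSpace.exp_zero]
    rfl
  rw [← h2, h1]

private theorem phi_smooth {n : WithTop ℕ∞} (S : ℂ × ℂ →ₗ[ℝ] (H →L[ℂ] H)) (y : H) : ContDiff ℝ n (Phi S y) := by
  have h1 : ContDiff ℝ n (fun X : H →L[ℂ] H => NormedSpace.exp X) := by
    rw [contDiff_iff_contDiffAt]
    intro X
    exact (NormedSpace.exp_analytic (𝕂 := ℝ) X).contDiffAt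
  have h2 : ContDiff ℝ n (fun c => S c) := (LinearMap.toContinuousLinearMap S).contDiff
  have h3 : ContDiff ℝ n (fun X : H →L[ℂ] H => X y) :=
    ((ContinuousLinearMap.apply ℂ H y).restrictScalars ℝ).contDiff
  exact h3.comp (h1.comp h2)

theorem Phi_cont (hS : Fam T B S) (y : H) : Continuous (Phi S y) := by
  have _ := hS
  exact (phi_smooth (n := 0) S y).continuous

theorem tht_contDiff (hS : Fam T B S) {y : H} (hy : y ≠ 0) (i : Fin 4) :
    ContDiff ℝ 2 (tht S y i) := by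
  have h1 := phi_smooth (n := 2) S y
  have h2 : ContDiff ℝ 2 (fun c => S (vv i) (Phi S y c)) :=
    ((S (vv i)).restrictScalars ℝ).contDiff.comp h1
  have h3 : ContDiff ℝ 2 (fun c => (inner ℂ (Phi S y c) (S (vv i) (Phi S y c))).im) :=
    Complex.imCLM.contDiff.comp (h1.inner ℂ h2)
  have h4 : ContDiff ℝ 2 (fun c => ‖Phi S y c‖ ^ 2) := h1.norm_sq ℂ
  exact h3.div h4 fun c => pow_ne_zero 2 (norm_ne_zero_iff.2 (Phi_ne hS hy c))

private theorem phi_line (hS : Fam T B S) (y : H) (c v : ℂ × ℂ) :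
    HasDerivAt (fun t : ℝ => Phi S y (c + t • v)) (S v (Phi S y c)) 0 := by
  have h1 := hasDerivAt_exp_smul_const (𝕂 := ℝ) (S v) (0 : ℝ)
  rw [zero_smul, NormedSpace.exp_zero, one_mul] at h1
  have h2 := ((ContinuousLinearMap.apply ℂ H (Phi S y c)).restrictScalars ℝ).hasFDerivAt.comp_hasDerivAt
    (0 : ℝ) h1
  have h3 : (fun t : ℝ => Phi S y (c + t • v)) = fun t : ℝ => (NormedSpace.exp (t • S v)) (Phi S y c) := by
    funext t
    rw [Phi_add hS, map_smul]
  rw [h3]
  exact h2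

private theorem phi_der (hS : Fam T B S) {y : H} (hy : y ≠ 0) (j : Fin 4) (c v : ℂ × ℂ) :
    fderiv ℝ (tht S y j) c v =
      (((inner ℂ (Phi S y c) (S (vv j) (S v (Phi S y c)))).im +
        (inner ℂ (S v (Phi S y c)) (S (vv j) (Phi S y c))).im) * ‖Phi S y c‖ ^ 2 -
        (inner ℂ (Phi S y c) (S (vv j) (Phi S y c))).im * (2 * (inner ℂ (Phi S y c) (S v (Phi S y c))).re)) /
        (‖Phi S y c‖ ^ 2) ^ 2 := by
  have hf := phi_line hS y c v
  have hg : HasDerivAt (fun t : ℝ => S (vv j) (Phi S y (c + t • v))) (S (vv j) (S v (Phi S y c))) 0 :=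
    ((S (vv j)).restrictScalars ℝ).hasFDerivAt.comp_hasDerivAt (0 : ℝ) hf
  have hc0 : c + (0 : ℝ) • v = c := by rw [zero_smul, add_zero]
  have hne : Phi S y (c + (0 : ℝ) • v) ≠ 0 := Phi_ne hS hy _
  have h1 := hasDerivAt_alp hf hg hne
  simp only [hc0] at h1
  have hline : HasDerivAt (fun t : ℝ => c + t • v) v 0 := by
    have h3 := ((hasDerivAt_id (0 : ℝ)).smul_const v).const_add c
    rw [one_smul] at h3
    exact h3
  have hd : HasFDerivAt (tht S y j) (fderiv ℝ (tht S y j) c) (c + (0 : ℝ) • v) := by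
    rw [hc0]
    exact ((tht_contDiff hS hy j).differentiable (by norm_num) c).hasFDerivAt
  have h2 := hd.comp_hasDerivAt (0 : ℝ) hline
  exact h2.unique h1

theorem omg_eq (hS : Fam T B S) {y : H} (hy : y ≠ 0) (i j : Fin 4) (c : ℂ × ℂ) :
    omg (tht S y) vv i j c =
      2 * (Bf (Phi S y c) (S (vv i) (Phi S y c)) (S (vv j) (Phi S y c))).im /
        ‖Phi S y c‖ ^ 4 := by
  unfold omg
  have hcom : S (vv i) (S (vv j) (Phi S y c)) = S (vv j) (S (vv i) (Phi S y c)) := by
    have h1 := (fam_commute hS (vv i) (vv j)).eq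
    exact congrArg (fun X : H →L[ℂ] H => X (Phi S y c)) h1
  rw [phi_der hS hy j c (vv i), phi_der hS hy i c (vv j), hcom, curv, ← pow_mul]

theorem tht_le {y : H} {i : Fin 4} (h : ‖S (vv i)‖ ≤ 1) (c : ℂ × ℂ) : |tht S y i c| ≤ 1 := by
  unfold tht alp
  by_cases h0 : Phi S y c = 0
  · rw [h0]
    simp
  · have hp : 0 < ‖Phi S y c‖ := norm_pos_iff.2 h0
    rw [abs_div, abs_of_pos (by positivity : (0 : ℝ) < ‖Phi S y c‖ ^ 2), div_le_one (by positivity)]
    refine (Complex.abs_im_le_norm _).trans ((norm_inner_le_norm _ _).trans ?_)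
    have h1 : ‖S (vv i) (Phi S y c)‖ ≤ 1 * ‖Phi S y c‖ :=
      ((S (vv i)).le_opNorm _).trans (mul_le_mul_of_nonneg_right h hp.le)
    rw [one_mul] at h1
    rw [sq]
    exact mul_le_mul_of_nonneg_left h1 hp.le

end Pool.Agent.Work.MP_0d53be_an.Full
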