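import Pool.Agent.Work.MP_0d53be_an.Full.Q.Fam

/-!
# Q/NearK: near returns carry second curvature

`H` complex inner product space, `T : H →L[ℂ] H` with `‖T‖ ≤ 1`, `z₀, T z₀, T² z₀` linearly
independent. Then there are `ε > 0`, `κ > 0` such that `κ ≤ K2 T G` whenever `‖G - l • z₀‖ ≤ ε` for
some `l` with `‖l‖ = 1`.

Proof. `K2 T (l • G) = K2 T G` for `‖l‖ = 1` (`Bf` is sesquilinear in the last two arguments and
quadratic in the first: every term is multiplied by `|l|^8 = 1`), so it is enough to treat `l = 1`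
(replace `G` by `l⁻¹ • G`). `K2 T` is continuous at `z₀ ≠ 0` (inner products, `T`, division by
`‖G‖⁸ ≠ 0`), so it suffices that `K2 T z₀ > 0`; then take `κ = K2 T z₀/2`.
By `decomp` (`δ = 1`) for `G = z₀`: `K2 T z₀ = ‖e‖²‖φ 1‖²` (computation in Q/Fam). `e ≠ 0`: otherwise
`T z₀ = α 0 z₀` (`φ 0 = 0`). `φ 1 ≠ 0`: otherwise `T² z₀ = α 1 z₀ + ‖z₀‖ β 1 e` is a combination of
`z₀` and `T z₀ = α 0 z₀ + ‖z₀‖ e`. Both contradict linear independence.
(Direct proof without Q/Dec: Cauchy-Schwarz, strict, for the components orthogonal to `z₀`.)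
-/

set_option autoImplicit false

namespace Pool.Agent.Work.MP_0d53be_an.Full

variable {H : Type*} [NormedAddCommGroup H] [InnerProductSpace ℂ H]

private theorem Bf_rot {l : ℂ} (hl : ‖l‖ = 1) (G A B : H) :
    Bf (l • G) (l • A) (l • B) = Bf G A B := by
  have h1 : (starRingEnd ℂ) l * l = 1 := by
    rw [Complex.conj_mul', hl]
    norm_num
  unfold Bf
  rw [inner_smul_left, inner_smul_right, inner_smul_left, inner_smul_right, inner_smul_left,
    inner_smul_right, norm_smul, hl, one_mul]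
  linear_combination (inner ℂ A B * (‖G‖ : ℂ) ^ 2 - inner ℂ A G * inner ℂ G B *
    ((starRingEnd ℂ) l * l + 1)) * h1

private theorem K2_rot (T : H →L[ℂ] H) {l : ℂ} (hl : ‖l‖ = 1) (G : H) : K2 T (l • G) = K2 T G := by
  unfold K2
  rw [map_smul, map_smul, Bf_rot hl, Bf_rot hl, Bf_rot hl, norm_smul, hl, one_mul]

private theorem K2_cont (T : H →L[ℂ] H) {z : H} (hz : z ≠ 0) : ContinuousAt (K2 T) z := by
  have h1 : Continuous fun G : H => (Bf G (T G) (T G)).re * (Bf G (T (T G)) (T (T G))).re -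
      ‖Bf G (T G) (T (T G))‖ ^ 2 := by
    unfold Bf
    fun_prop
  have h2 : Continuous fun G : H => ‖G‖ ^ 8 := by fun_prop
  exact h1.continuousAt.div h2.continuousAt (pow_ne_zero 8 (norm_ne_zero_iff.mpr hz))

theorem near_K2 {T : H →L[ℂ] H} (hT : ‖T‖ ≤ 1) {z₀ : H}
    (hli : LinearIndependent ℂ ![z₀, T z₀, T (T z₀)]) :
    ∃ ε : ℝ, 0 < ε ∧ ∃ κ : ℝ, 0 < κ ∧ ∀ (G : H) (l : ℂ), ‖l‖ = 1 → ‖G - l • z₀‖ ≤ ε →
      κ ≤ K2 T G := by
  have hz : z₀ ≠ 0 := by
    have := hli.ne_zero 0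
    simpa using this
  obtain ⟨e, α, β, φ, hdec, heG, hφG, hφe, hβ0, hφ0, _, _, hφ1⟩ := decomp hT le_rfl hz
  have hT1 : T z₀ = α 0 • z₀ + (‖z₀‖ : ℂ) • e := by
    have h1 := hdec 0
    rw [zero_add, pow_one, hβ0, hφ0, one_smul, add_zero] at h1
    exact h1
  have hT2 : T (T z₀) = α 1 • z₀ + (‖z₀‖ : ℂ) • (β 1 • e + φ 1) := by
    have h1 := hdec 1
    rw [← h1]
    rfl
  have hK2 : K2 T z₀ = ‖e‖ ^ 2 * ‖φ 1‖ ^ 2 := K2_eq_dec hz heG (hφG 1) (hφe 1) hT1 hT2
  have hφne : φ 1 ≠ 0 := by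
    intro h0
    rw [h0, add_zero] at hT2
    have h1 := Fintype.linearIndependent_iff.mp hli ![-(α 1 - β 1 * α 0), -β 1, 1] (by
      rw [Fin.sum_univ_three]
      simp only [Matrix.cons_val_zero, Matrix.cons_val_one, Matrix.cons_val_two, Matrix.head_cons,
        Matrix.tail_cons, Matrix.cons_val]
      rw [hT2, hT1]
      module) 2
    simp at h1
  have hφn : 0 < ‖φ 1‖ := norm_pos_iff.mpr hφne
  have hen : 0 < ‖e‖ := by linarith
  have hpos : 0 < K2 T z₀ := by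
    rw [hK2]
    positivity
  have hc := K2_cont T hz
  have h1 : ∀ᶠ G in nhds z₀, K2 T z₀ / 2 < K2 T G :=
    hc.eventually_const_lt (by linarith)
  obtain ⟨ε, hε, hball⟩ := Metric.eventually_nhds_iff.mp h1
  refine ⟨ε / 2, by linarith, K2 T z₀ / 2, by linarith, ?_⟩
  intro G l hl hG
  have hl0 : l ≠ 0 := by
    rintro rfl
    rw [norm_zero] at hl
    exact zero_ne_one hl
  have h2 : G = l • (l⁻¹ • G) := by
    rw [smul_smul, mul_inv_cancel₀ hl0, one_smul]
  have h3 : dist (l⁻¹ • G) z₀ < ε := by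
    rw [dist_eq_norm]
    have h4 : l⁻¹ • G - z₀ = l⁻¹ • (G - l • z₀) := by
      rw [smul_sub, smul_smul, inv_mul_cancel₀ hl0, one_smul]
    rw [h4, norm_smul, norm_inv, hl, inv_one, one_mul]
    linarith
  rw [h2, K2_rot T hl]
  exact (hball h3).le

end Pool.Agent.Work.MP_0d53be_an.Full
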