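import Pool.Agent.Work.MP_0d53be_an.Full.Q.Int
import Pool.Agent.Work.MP_0d53be_an.Full.Q.NearK

/-!
# Q/Count4: the counting theorem in dimension four

For every `B` there is `δ > 0` such that for a Hilbert space `H`, `‖T‖ ≤ δ`, `z₀` with
`z₀, T z₀, T² z₀` linearly independent there are `ε > 0` and `C` such that for every `Fam T B S`,
`y ≠ 0`, `L ≥ 1` and every finite set `F` of points `c`, `‖c‖ ≤ L`, with pairwise distances `≥ 1` and
`‖Phi S y c - l • z₀‖ ≤ ε` for some `‖l‖ = 1`: `card F ≤ C L²`.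

Proof. `δ`, `C₀` from `int_curv`; `ε', κ` from `near_K2`. `‖S v‖ ≤ 4 ‖v‖` for `v : ℂ × ℂ`
(`v = Re v.1 vv 0 + Im v.1 vv 1 + Re v.2 vv 2 + Im v.2 vv 3`, `‖S (vv i)‖ ≤ 1`). Choose `r ∈ (0, 1/4)`
and `ε ∈ (0, ε'/2)` with `(e^{4r} - 1)(‖z₀‖ + ε) + ε ≤ ε'`. For `c ∈ F` and `‖c' - c‖ ≤ r`:
`Phi c' = exp (S (c' - c)) (Phi c)` (`Phi_add`), so
`‖Phi c' - l z₀‖ ≤ ‖exp (S (c'-c)) - 1‖ ‖Phi c‖ + ε ≤ (e^{4r} - 1)(‖z₀‖ + ε) + ε ≤ ε'`
(`exp_close`), hence `K2 T (Phi c') ≥ κ`. The balls of radius `r` around the points of `F` are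
disjoint and contained in `‖c‖ ≤ 2L`; `K2 ≥ 0`. So
`card F * κ * vol(ball r) ≤ ∫_{‖c‖≤2L} K2 ≤ C₀ (2L)²` (`K2 T (Phi c)` is continuous in `c`, so
integrable on the ball: `Phi_cont`, `Phi_ne`).
-/

set_option autoImplicit false

namespace Pool.Agent.Work.MP_0d53be_an.Full

open MeasureTheory

private theorem haar_vol' : (volume : Measure (ℂ × ℂ)).IsAddHaarMeasure :=
  inferInstanceAs ((volume : Measure ℂ).prod (volume : Measure ℂ)).IsAddHaarMeasure

private theorem Bf_cont' {H : Type*} [NormedAddCommGroup H] [InnerProductSpace ℂ H]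
    {G A B : ℂ × ℂ → H} (hG : Continuous G) (hA : Continuous A) (hB : Continuous B) :
    Continuous (fun c => Bf (G c) (A c) (B c)) := by
  unfold Bf
  exact ((hA.inner hB).mul ((Complex.continuous_ofReal.comp hG.norm).pow 2)).sub
    ((hA.inner hG).mul (hG.inner hB))

private theorem K2_cont' {H : Type*} [NormedAddCommGroup H] [InnerProductSpace ℂ H]
    (T : H →L[ℂ] H) {G : ℂ × ℂ → H} (hG : Continuous G) (hne : ∀ c, G c ≠ 0) :
    Continuous (fun c => K2 T (G c)) := by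
  unfold K2
  have h1 : Continuous (fun c => T (G c)) := T.continuous.comp hG
  have h2 : Continuous (fun c => T (T (G c))) := T.continuous.comp h1
  exact (((Complex.continuous_re.comp (Bf_cont' hG h1 h1)).mul
    (Complex.continuous_re.comp (Bf_cont' hG h2 h2))).sub
    ((Bf_cont' hG h1 h2).norm.pow 2)).div (hG.norm.pow 8)
    (fun c => pow_ne_zero _ (norm_ne_zero_iff.2 (hne c)))

private theorem norm_S {H : Type*} [NormedAddCommGroup H] [InnerProductSpace ℂ H]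
    (S : ℂ × ℂ →ₗ[ℝ] (H →L[ℂ] H)) (h : ∀ i, ‖S (vv i)‖ ≤ 1) (v : ℂ × ℂ) :
    ‖S v‖ ≤ 4 * ‖v‖ := by
  have e : v = v.1.re • vv 0 + v.1.im • vv 1 + v.2.re • vv 2 + v.2.im • vv 3 := by
    apply Prod.ext
    · apply Complex.ext <;> simp [vv]
    · apply Complex.ext <;> simp [vv]
  have h1 : S v = v.1.re • S (vv 0) + v.1.im • S (vv 1) + v.2.re • S (vv 2)
      + v.2.im • S (vv 3) := by
    conv_lhs => rw [e]
    simp only [map_add, map_smul]
  have b : ∀ (x : ℝ) (i : Fin 4), |x| ≤ ‖v‖ → ‖x • S (vv i)‖ ≤ ‖v‖ := by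
    intro x i hx
    rw [norm_smul, Real.norm_eq_abs]
    calc |x| * ‖S (vv i)‖ ≤ ‖v‖ * 1 := mul_le_mul hx (h i) (norm_nonneg _) (norm_nonneg _)
      _ = ‖v‖ := mul_one _
  have n1 : ‖v.1‖ ≤ ‖v‖ := norm_fst_le v
  have n2 : ‖v.2‖ ≤ ‖v‖ := norm_snd_le v
  have c0 := b v.1.re 0 ((Complex.abs_re_le_norm _).trans n1)
  have c1 := b v.1.im 1 ((Complex.abs_im_le_norm _).trans n1)
  have c2 := b v.2.re 2 ((Complex.abs_re_le_norm _).trans n2)
  have c3 := b v.2.im 3 ((Complex.abs_im_le_norm _).trans n2)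
  rw [h1]
  have d1 := norm_add_le (v.1.re • S (vv 0) + v.1.im • S (vv 1) + v.2.re • S (vv 2))
    (v.2.im • S (vv 3))
  have d2 := norm_add_le (v.1.re • S (vv 0) + v.1.im • S (vv 1)) (v.2.re • S (vv 2))
  have d3 := norm_add_le (v.1.re • S (vv 0)) (v.1.im • S (vv 1))
  linarith

private theorem exp_bd {x : ℝ} (h0 : 0 ≤ x) (h1 : x ≤ 1) : Real.exp x - 1 ≤ 2 * x := by
  have h := Real.abs_exp_sub_one_le (x := x) (by rw [abs_of_nonneg h0]; exact h1)
  rw [abs_of_nonneg h0] at h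
  exact (le_abs_self _).trans h

private theorem move {H : Type*} [NormedAddCommGroup H] [InnerProductSpace ℂ H] [CompleteSpace H]
    (X : H →L[ℂ] H) {r : ℝ} (hr0 : 0 ≤ r) (hr : 4 * r ≤ 1) (hX : ‖X‖ ≤ 4 * r) {G w : H} {ε N : ℝ}
    (hG : ‖G - w‖ ≤ ε) (hw : ‖w‖ = N) :
    ‖(NormedSpace.exp X) G - w‖ ≤ 8 * r * (N + ε) + ε := by
  have h1 : (NormedSpace.exp X) G - w = (NormedSpace.exp X - 1) G + (G - w) := by
    rw [ContinuousLinearMap.sub_apply, ContinuousLinearMap.one_apply]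
    abel
  have h2 : ‖NormedSpace.exp X - 1‖ ≤ 8 * r := by
    have a1 := exp_close X
    have a2 : Real.exp ‖X‖ ≤ Real.exp (4 * r) := Real.exp_le_exp.2 hX
    have a3 := exp_bd (x := 4 * r) (by positivity) hr
    linarith
  have h3 : ‖G‖ ≤ N + ε := by
    have a1 : G = w + (G - w) := by abel
    have a2 : ‖G‖ ≤ ‖w‖ + ‖G - w‖ := by
      conv_lhs => rw [a1]
      exact norm_add_le _ _
    linarith
  rw [h1]
  refine (norm_add_le _ _).trans (add_le_add ?_ hG)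
  refine ((NormedSpace.exp X - 1).le_opNorm G).trans ?_
  exact mul_le_mul h2 h3 (norm_nonneg _) (by positivity)

private theorem pack (F : Finset (ℂ × ℂ)) (f : ℂ × ℂ → ℝ) (hf : Continuous f) (h0 : ∀ c, 0 ≤ f c)
    {L r κ : ℝ} (hL : 1 ≤ L) (hr0 : 0 < r) (hr : r ≤ 1 / 4) (hF : ∀ c ∈ F, ‖c‖ ≤ L)
    (hsep : ∀ c ∈ F, ∀ c' ∈ F, c ≠ c' → 1 ≤ ‖c - c'‖)
    (hk : ∀ c ∈ F, ∀ c' ∈ Metric.closedBall c r, κ ≤ f c') :
    (F.card : ℝ) * (κ * (volume : Measure (ℂ × ℂ)).real (Metric.closedBall 0 r)) ≤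
      ∫ c in Metric.closedBall (0 : ℂ × ℂ) (2 * L), f c := by
  haveI := haar_vol'
  have hint : ∀ (c : ℂ × ℂ) (s : ℝ), IntegrableOn f (Metric.closedBall c s) := fun c s =>
    hf.continuousOn.integrableOn_compact (isCompact_closedBall _ _)
  have hvol : ∀ c : ℂ × ℂ, (volume : Measure (ℂ × ℂ)).real (Metric.closedBall c r) =
      (volume : Measure (ℂ × ℂ)).real (Metric.closedBall 0 r) := by
    intro c
    rw [Measure.real, Measure.real, Measure.addHaar_closedBall _ _ hr0.le,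
      Measure.addHaar_closedBall _ _ hr0.le]
  have h1 : ∀ c ∈ F, κ * (volume : Measure (ℂ × ℂ)).real (Metric.closedBall 0 r) ≤
      ∫ c' in Metric.closedBall c r, f c' := by
    intro c hc
    have e1 : ∫ _ in Metric.closedBall c r, κ ≤ ∫ c' in Metric.closedBall c r, f c' := by
      refine setIntegral_mono_on ?_ (hint c r) Metric.isClosed_closedBall.measurableSet
        (hk c hc)
      exact continuous_const.continuousOn.integrableOn_compact (isCompact_closedBall _ _)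
    rw [setIntegral_const, hvol, smul_eq_mul] at e1
    linarith
  have h2 : (F.card : ℝ) * (κ * (volume : Measure (ℂ × ℂ)).real (Metric.closedBall 0 r)) ≤
      ∑ c ∈ F, ∫ c' in Metric.closedBall c r, f c' := by
    have e1 := Finset.card_nsmul_le_sum F (fun c => ∫ c' in Metric.closedBall c r, f c') _ h1
    rwa [nsmul_eq_mul] at e1
  have h3 : ∑ c ∈ F, ∫ c' in Metric.closedBall c r, f c' =
      ∫ c' in ⋃ c ∈ F, Metric.closedBall c r, f c' := by
    rw [integral_biUnion_finset F (fun c _ => Metric.isClosed_closedBall.measurableSet) ?_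
      (fun c _ => hint c r)]
    intro c hc c' hc' hne
    refine Set.disjoint_left.2 fun z hz hz' => ?_
    have a1 := hsep c hc c' hc' hne
    rw [Metric.mem_closedBall, dist_eq_norm] at hz hz'
    have a2 : c - c' = (z - c') - (z - c) := by abel
    have a3 : ‖c - c'‖ ≤ ‖z - c'‖ + ‖z - c‖ := by
      rw [a2]
      exact norm_sub_le _ _
    linarith
  have h4 : ∫ c' in ⋃ c ∈ F, Metric.closedBall c r, f c' ≤
      ∫ c in Metric.closedBall (0 : ℂ × ℂ) (2 * L), f c := by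
    refine setIntegral_mono_set (hint _ _) (Filter.Eventually.of_forall h0) ?_
    refine (Set.iUnion₂_subset fun c hc => ?_).eventuallyLE
    intro z hz
    rw [Metric.mem_closedBall, dist_eq_norm] at hz
    rw [mem_closedBall_zero_iff]
    have a1 : z = (z - c) + c := by abel
    have a2 : ‖z‖ ≤ ‖z - c‖ + ‖c‖ := by
      conv_lhs => rw [a1]
      exact norm_add_le _ _
    have a3 := hF c hc
    linarith
  rw [h3] at h2
  exact h2.trans h4

theorem count_four (B : ℝ) : ∃ δ : ℝ, 0 < δ ∧ δ ≤ 1 / 10 ∧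
    ∀ {H : Type} [NormedAddCommGroup H] [InnerProductSpace ℂ H] [CompleteSpace H]
      (T : H →L[ℂ] H), ‖T‖ ≤ δ → ∀ z₀ : H, LinearIndependent ℂ ![z₀, T z₀, T (T z₀)] →
      ∃ ε : ℝ, 0 < ε ∧ ∃ C : ℝ, ∀ S : ℂ × ℂ →ₗ[ℝ] (H →L[ℂ] H), Fam T B S → ∀ y : H, y ≠ 0 →
        ∀ L : ℝ, 1 ≤ L → ∀ F : Finset (ℂ × ℂ), (∀ c ∈ F, ‖c‖ ≤ L) →
        (∀ c ∈ F, ∀ c' ∈ F, c ≠ c' → 1 ≤ ‖c - c'‖) →
        (∀ c ∈ F, ∃ l : ℂ, ‖l‖ = 1 ∧ ‖Phi S y c - l • z₀‖ ≤ ε) → (F.card : ℝ) ≤ C * L ^ 2 := by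
  obtain ⟨C₀, hC₀⟩ := int_curv
  obtain ⟨δ, hδ0, hδ1, hδ⟩ := hC₀ B
  refine ⟨δ, hδ0, hδ1, ?_⟩
  intro H _ _ _ T hT z₀ hli
  haveI := haar_vol'
  have hT1 : ‖T‖ ≤ 1 := by linarith
  obtain ⟨ε', hε', κ, hκ, hnear⟩ := near_K2 hT1 hli
  set N : ℝ := ‖z₀‖ with hN
  have hN0 : 0 ≤ N := norm_nonneg _
  set r : ℝ := min (1 / 4) (ε' / (16 * (N + ε'))) with hr
  have hr0 : 0 < r := by
    rw [hr]
    refine lt_min (by norm_num) (by positivity)
  have hr1 : r ≤ 1 / 4 := min_le_left _ _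
  have hr2 : 16 * r * (N + ε') ≤ ε' := by
    have a1 : r ≤ ε' / (16 * (N + ε')) := min_le_right _ _
    rw [le_div_iff₀ (by positivity)] at a1
    linarith
  set V : ℝ := (volume : Measure (ℂ × ℂ)).real (Metric.closedBall 0 r) with hV
  have hV0 : 0 < V := by
    refine ENNReal.toReal_pos ?_ ?_
    · exact (Metric.measure_closedBall_pos _ _ hr0).ne'
    · exact (isCompact_closedBall _ _).measure_lt_top.ne
  refine ⟨ε' / 2, by positivity, 4 * C₀ / (κ * V), ?_⟩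
  intro S hS y hy L hL F hF hsep hclose
  obtain ⟨hn, hG⟩ := hδ T hT S hS
  obtain ⟨hK, hI⟩ := hG y hy
  have hP : Continuous (Phi S y) := Phi_cont hS y
  have hne : ∀ c, Phi S y c ≠ 0 := Phi_ne hS hy
  have hpack := pack F (fun c => K2 T (Phi S y c)) (K2_cont' T hP hne) hK hL hr0 hr1 hF hsep
    (κ := κ) ?_
  · have h1 := (hI (2 * L) (by linarith)).2
    rw [← hV] at hpack
    have h2 : (F.card : ℝ) * (κ * V) ≤ C₀ * (2 * L) ^ 2 := hpack.trans h1
    rw [div_mul_eq_mul_div, le_div_iff₀ (by positivity)]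
    linarith
  · intro c hc c' hc'
    obtain ⟨l, hl, hcl⟩ := hclose c hc
    refine hnear _ l hl ?_
    have e1 : c' = c + (c' - c) := by abel
    have e2 : Phi S y c' = (NormedSpace.exp (S (c' - c))) (Phi S y c) := by
      rw [← Phi_add hS, ← e1]
    have e3 : ‖S (c' - c)‖ ≤ 4 * r := by
      refine (norm_S S hn _).trans ?_
      rw [Metric.mem_closedBall, dist_eq_norm] at hc'
      linarith
    have e4 : ‖l • z₀‖ = N := by rw [norm_smul, hl, one_mul]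
    have e5 := move (S (c' - c)) hr0.le (by linarith) e3 hcl e4
    rw [e2]
    refine e5.trans ?_
    have e6 : r * (N + ε' / 2) ≤ r * (N + ε') := mul_le_mul_of_nonneg_left (by linarith) hr0.le
    linarith

end Pool.Agent.Work.MP_0d53be_an.Full
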