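import Mathlib

/-!
# Q/Dec: the decomposition of the powers

`H` complex inner product space, `T : H →L[ℂ] H`, `‖T‖ ≤ δ ≤ 1`, `G ≠ 0`. There are
`e : H`, `α β : ℕ → ℂ`, `φ : ℕ → H` such that for all `j`
`T^(j+1) G = α j • G + (‖G‖ : ℂ) • (β j • e + φ j)`, with
`inner G e = 0`, `inner G (φ j) = 0`, `inner e (φ j) = 0`, `β 0 = 1`, `φ 0 = 0`,
`‖β j‖ ≤ (j+1) δ^j`, `‖φ (j+1)‖ ≤ (j+2)² δ^j ‖φ 1‖`, `‖φ 1‖ ≤ 2 δ ‖e‖`.
(So `e` is the normalized part of `T G` orthogonal to `G`; `φ 1` is the normalized part of `T² G`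
orthogonal to `G` and `T G`.)

Proof. Let `P⊥ X = X - (inner G X/‖G‖²) G`, `u_j = P⊥ T^(j+1) G/‖G‖` (orthogonal to `G`), `e = u_0`.
`‖u_{j+1}‖ ≤ δ ‖u_j‖ + δ^(j+1) ‖e‖`: `T^(j+1) G = c_j G + ‖G‖ u_j`, `|c_j| ≤ δ^(j+1)`
(Cauchy-Schwarz), so `P⊥ T^(j+2) G = c_j P⊥ T G + ‖G‖ P⊥ T u_j` and `‖P⊥‖ ≤ 1`. Hence
`‖u_j‖ ≤ (j+1) δ^j ‖e‖`.
If `e = 0`: all `u_j = 0`; take `β 0 = 1`, `β j = 0` for `j ≥ 1`, `φ = 0`, `α j = c_j`.
If `e ≠ 0`: `β j = inner e u_j/‖e‖²`, `φ j = u_j - β j e`. `β 0 = 1`, `φ 0 = 0`; orthogonality is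
clear; `‖β j‖ ≤ ‖u_j‖/‖e‖ ≤ (j+1) δ^j`; `‖φ 1‖ ≤ ‖u_1‖ ≤ 2δ‖e‖`. Let `Q` be the projection on the
orthogonal complement of `span(G, e)`. `φ j = Q u_j`, `Q T^(j+1) G = ‖G‖ φ j`, `Q T G = 0`,
`Q T² G = ‖G‖ φ 1`, and `‖G‖ e = T G - c_0 G`, so `‖G‖ Q T e = ‖G‖ φ 1`. Then
`‖G‖ φ (j+1) = Q T T^(j+1) G = α_j Q T G + ‖G‖ (β j Q T e + Q T φ j) = ‖G‖ (β j φ 1 + Q T φ j)`, so
`‖φ (j+1)‖ ≤ (j+1) δ^j ‖φ 1‖ + δ ‖φ j‖`. For `j = 0` : `‖φ 1‖ ≤ ‖φ 1‖`. By induction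
`‖φ (j+1)‖ ≤ (1 + 2 + … + (j+1)) δ^j ‖φ 1‖ ≤ (j+2)² δ^j ‖φ 1‖`.
-/

set_option autoImplicit false

namespace Pool.Agent.Work.MP_0d53be_an.Full

private theorem opNorm_pow_le' {H : Type*} [NormedAddCommGroup H] [InnerProductSpace ℂ H]
    (T : H →L[ℂ] H) (n : ℕ) : ‖T ^ (n)‖ ≤ ‖T‖ ^ n := by
  induction n with
  | zero =>
    rw [pow_zero, pow_zero]
    exact ContinuousLinearMap.norm_id_le
  | succ n ih =>
    rw [pow_succ, pow_succ]
    exact (norm_mul_le _ _).trans (mul_le_mul_of_nonneg_right ih (norm_nonneg _))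

private theorem proj_one {H : Type*} [NormedAddCommGroup H] [InnerProductSpace ℂ H] {G : H}
    (hG : G ≠ 0) : ∃ P : H →L[ℂ] H, (∀ x, ‖P x‖ ≤ ‖x‖) ∧ P G = 0 ∧ (∀ x, inner ℂ G (P x) = 0) ∧
      ∀ x, ∃ c : ℂ, x = c • G + P x ∧ ‖c‖ * ‖G‖ ≤ ‖x‖ := by
  have hle : ∀ (K : Submodule ℂ H) [K.HasOrthogonalProjection] (x : H),
      ‖K.starProjection x‖ ≤ ‖x‖ := by
    intro K _ x
    refine (K.starProjection.le_opNorm x).trans ?_
    calc ‖K.starProjection‖ * ‖x‖ ≤ 1 * ‖x‖ :=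
          mul_le_mul_of_nonneg_right (Submodule.starProjection_norm_le K) (norm_nonneg _)
      _ = ‖x‖ := one_mul _
  refine ⟨(ℂ ∙ G)ᗮ.starProjection, hle _, ?_, fun x => ?_, fun x => ?_⟩
  · rw [Submodule.starProjection_apply_eq_zero_iff]
    exact Submodule.le_orthogonal_orthogonal _ (Submodule.mem_span_singleton_self G)
  · have h1 := Submodule.starProjection_apply_mem (ℂ ∙ G)ᗮ x
    exact Submodule.mem_orthogonal_singleton_iff_inner_right.1 h1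
  · have h1 := Submodule.starProjection_apply_mem (ℂ ∙ G) x
    obtain ⟨c, hc⟩ := Submodule.mem_span_singleton.1 h1
    refine ⟨c, ?_, ?_⟩
    · rw [hc]
      exact (Submodule.starProjection_add_starProjection_orthogonal (K := ℂ ∙ G) x).symm
    · rw [← norm_smul, hc]
      exact hle _ x

private theorem proj_two {H : Type*} [NormedAddCommGroup H] [InnerProductSpace ℂ H] (G e : H) :
    ∃ Q : H →L[ℂ] H, (∀ x, ‖Q x‖ ≤ ‖x‖) ∧ Q G = 0 ∧ Q e = 0 ∧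
      ∀ x, inner ℂ G x = 0 → inner ℂ e x = 0 → Q x = x := by
  haveI : FiniteDimensional ℂ (Submodule.span ℂ ({G, e} : Set H)) :=
    FiniteDimensional.span_of_finite ℂ (Set.toFinite _)
  haveI : CompleteSpace (Submodule.span ℂ ({G, e} : Set H)) := FiniteDimensional.complete ℂ _
  refine ⟨(Submodule.span ℂ ({G, e} : Set H))ᗮ.starProjection, fun x => ?_, ?_, ?_, ?_⟩
  · refine (ContinuousLinearMap.le_opNorm _ x).trans ?_
    exact (mul_le_mul_of_nonneg_right (Submodule.starProjection_norm_le _)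
      (norm_nonneg _)).trans_eq (one_mul _)
  · rw [Submodule.starProjection_apply_eq_zero_iff]
    exact Submodule.le_orthogonal_orthogonal _ (Submodule.subset_span (by simp))
  · rw [Submodule.starProjection_apply_eq_zero_iff]
    exact Submodule.le_orthogonal_orthogonal _ (Submodule.subset_span (by simp))
  · intro x h1 h2
    rw [Submodule.starProjection_eq_self_iff, Submodule.mem_orthogonal]
    intro y hy
    obtain ⟨a, b, rfl⟩ := Submodule.mem_span_pair.1 hy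
    rw [inner_add_left, inner_smul_left, inner_smul_left, h1, h2, mul_zero, mul_zero, add_zero]

theorem decomp {H : Type*} [NormedAddCommGroup H] [InnerProductSpace ℂ H] {T : H →L[ℂ] H} {δ : ℝ}
    (hT : ‖T‖ ≤ δ) (hδ : δ ≤ 1) {G : H} (hG : G ≠ 0) :
    ∃ (e : H) (α β : ℕ → ℂ) (φ : ℕ → H),
      (∀ j, (T ^ (j + 1)) G = α j • G + (‖G‖ : ℂ) • (β j • e + φ j)) ∧
      inner ℂ G e = 0 ∧ (∀ j, inner ℂ G (φ j) = 0) ∧ (∀ j, inner ℂ e (φ j) = 0) ∧
      β 0 = 1 ∧ φ 0 = 0 ∧ (∀ j, ‖β j‖ ≤ (j + 1) * δ ^ j) ∧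
      (∀ j, ‖φ (j + 1)‖ ≤ (j + 2) ^ 2 * δ ^ j * ‖φ 1‖) ∧ ‖φ 1‖ ≤ 2 * δ * ‖e‖ := by
  have hδ0 : 0 ≤ δ := (norm_nonneg T).trans hT
  have hGn : 0 < ‖G‖ := norm_pos_iff.2 hG
  have hGc : (‖G‖ : ℂ) ≠ 0 := by exact_mod_cast hGn.ne'
  obtain ⟨P, hPn, hPG, hPo, hPd⟩ := proj_one hG
  have hTn : ∀ j : ℕ, ‖(T ^ (j + 1)) G‖ ≤ δ ^ (j + 1) * ‖G‖ := by
    intro j
    refine ((T ^ (j + 1)).le_opNorm G).trans ?_
    refine mul_le_mul_of_nonneg_right ?_ (norm_nonneg _)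
    exact (opNorm_pow_le' T (j + 1)).trans (pow_le_pow_left₀ (norm_nonneg _) hT _)
  choose c hc1 hc2 using fun j : ℕ => hPd ((T ^ (j + 1)) G)
  have hcn : ∀ j, ‖c j‖ ≤ δ ^ (j + 1) := by
    intro j
    have h1 := (hc2 j).trans (hTn j)
    exact le_of_mul_le_mul_right h1 hGn
  obtain ⟨u, hu⟩ : ∃ u : ℕ → H, ∀ j, P ((T ^ (j + 1)) G) = (‖G‖ : ℂ) • u j := by
    refine ⟨fun j => (‖G‖ : ℂ)⁻¹ • P ((T ^ (j + 1)) G), fun j => ?_⟩
    rw [smul_smul, mul_inv_cancel₀ hGc, one_smul]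
  have hinj : ∀ x y : H, (‖G‖ : ℂ) • x = (‖G‖ : ℂ) • y → x = y := fun x y h =>
    smul_right_injective H hGc h
  have huo : ∀ j, inner ℂ G (u j) = 0 := by
    intro j
    have h1 := hPo ((T ^ (j + 1)) G)
    rw [hu j, inner_smul_right] at h1
    exact (mul_eq_zero.1 h1).resolve_left hGc
  have hrec : ∀ j, u (j + 1) = c j • u 0 + P (T (u j)) := by
    intro j
    apply hinj
    rw [← hu (j + 1), smul_add, smul_comm, ← hu 0]
    have h1 : (T ^ (j + 1 + 1)) G = T ((T ^ (j + 1)) G) := by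
      rw [pow_succ' T (j + 1)]; rfl
    rw [h1, hc1 j, hu j, map_add, map_smul, map_smul, map_add, map_smul, map_smul]
    simp only [zero_add, pow_one]
  have hrecn : ∀ j, ‖u (j + 1)‖ ≤ δ ^ (j + 1) * ‖u 0‖ + δ * ‖u j‖ := by
    intro j
    rw [hrec j]
    refine (norm_add_le _ _).trans (add_le_add ?_ ?_)
    · rw [norm_smul]
      exact mul_le_mul_of_nonneg_right (hcn j) (norm_nonneg _)
    · refine (hPn _).trans ((T.le_opNorm _).trans ?_)
      exact mul_le_mul_of_nonneg_right hT (norm_nonneg _)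
  have hun : ∀ j : ℕ, ‖u j‖ ≤ (j + 1) * δ ^ j * ‖u 0‖ := by
    intro j
    induction j with
    | zero => simp
    | succ j ih =>
      refine (hrecn j).trans ?_
      have h1 : δ * ‖u j‖ ≤ δ * ((j + 1) * δ ^ j * ‖u 0‖) := mul_le_mul_of_nonneg_left ih hδ0
      push_cast
      calc δ ^ (j + 1) * ‖u 0‖ + δ * ‖u j‖ ≤ δ ^ (j + 1) * ‖u 0‖ + δ * ((j + 1) * δ ^ j * ‖u 0‖) := by
            linarith
        _ = ((j : ℝ) + 1 + 1) * δ ^ (j + 1) * ‖u 0‖ := by rw [pow_succ]; ring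
  by_cases he : u 0 = 0
  · have hu0 : ∀ j, u j = 0 := by
      intro j
      have h1 := hun j
      rw [he, norm_zero, mul_zero] at h1
      exact norm_le_zero_iff.1 h1
    refine ⟨0, c, fun j => if j = 0 then 1 else 0, fun _ => 0, fun j => ?_, inner_zero_right _,
      fun j => inner_zero_right _, fun j => inner_zero_right _, if_pos rfl, rfl, fun j => ?_,
      fun j => ?_, ?_⟩
    · rw [smul_zero, add_zero, smul_zero, add_zero]
      have h1 := hc1 j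
      rw [hu j, hu0 j, smul_zero, add_zero] at h1
      exact h1
    · by_cases hj : j = 0
      · subst hj
        simp
      · simp only [hj, if_false, norm_zero]
        positivity
    · simp
    · simp
  · have hen : 0 < ‖u 0‖ := norm_pos_iff.2 he
    have hec : (‖u 0‖ : ℂ) ≠ 0 := by exact_mod_cast hen.ne'
    obtain ⟨Q, hQn, hQG, hQe, hQf⟩ := proj_two G (u 0)
    obtain ⟨β, hβ⟩ : ∃ β : ℕ → ℂ, ∀ j, β j = inner ℂ (u 0) (u j) / (‖u 0‖ : ℂ) ^ 2 :=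
      ⟨fun j => inner ℂ (u 0) (u j) / (‖u 0‖ : ℂ) ^ 2, fun j => rfl⟩
    obtain ⟨φ, hφ⟩ : ∃ φ : ℕ → H, ∀ j, φ j = u j - β j • u 0 := ⟨fun j => u j - β j • u 0, fun j => rfl⟩
    have hφe : ∀ j, inner ℂ (u 0) (φ j) = 0 := by
      intro j
      rw [hφ, inner_sub_right, inner_smul_right, inner_self_eq_norm_sq_to_K, hβ]
      have h2 : ((‖u 0‖ : ℝ) : ℂ) ^ 2 ≠ 0 := pow_ne_zero 2 hec
      have h3 : inner ℂ (u 0) (u j) / ((‖u 0‖ : ℝ) : ℂ) ^ 2 * ((‖u 0‖ : ℝ) : ℂ) ^ 2 =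
          inner ℂ (u 0) (u j) := div_mul_cancel₀ _ h2
      exact sub_eq_zero.2 h3.symm
    have hφG : ∀ j, inner ℂ G (φ j) = 0 := by
      intro j
      rw [hφ, inner_sub_right, inner_smul_right, huo, huo, mul_zero, sub_zero]
    have hβ0 : β 0 = 1 := by
      rw [hβ, inner_self_eq_norm_sq_to_K]
      exact div_self (pow_ne_zero 2 hec)
    have hφ0 : φ 0 = 0 := by rw [hφ, hβ0, one_smul, sub_self]
    have hβn : ∀ j : ℕ, ‖β j‖ ≤ (j + 1) * δ ^ j := by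
      intro j
      rw [hβ, norm_div, norm_pow, Complex.norm_real, norm_norm, div_le_iff₀ (by positivity)]
      refine (norm_inner_le_norm _ _).trans ?_
      have h1 := mul_le_mul_of_nonneg_left (hun j) (norm_nonneg (u 0))
      calc ‖u 0‖ * ‖u j‖ ≤ ‖u 0‖ * (((j : ℝ) + 1) * δ ^ j * ‖u 0‖) := h1
        _ = ((j : ℝ) + 1) * δ ^ j * ‖u 0‖ ^ 2 := by ring
    have hQφ : ∀ j, Q (u j) = φ j := by
      intro j
      have h1 : u j = φ j + β j • u 0 := by rw [hφ, sub_add_cancel]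
      rw [h1, map_add, map_smul, hQe, smul_zero, add_zero]
      exact hQf _ (hφG j) (hφe j)
    have hPQ : ∀ x, Q (P x) = Q x := by
      intro x
      obtain ⟨d, hd, -⟩ := hPd x
      have h1 : Q x = Q (d • G + P x) := by rw [← hd]
      rw [h1, map_add, map_smul, hQG, smul_zero, zero_add]
    have hr1 : ∀ j, φ (j + 1) = β j • Q (T (u 0)) + Q (T (φ j)) := by
      intro j
      rw [← hQφ (j + 1), hrec j, map_add, map_smul, hQe, smul_zero, zero_add, hPQ]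
      have h1 : u j = β j • u 0 + φ j := by rw [hφ]; abel
      have h2 : T (u j) = β j • T (u 0) + T (φ j) := by
        conv_lhs => rw [h1]
        rw [map_add, map_smul]
      rw [h2, map_add, map_smul]
    have hr0 : φ 1 = Q (T (u 0)) := by
      have h1 := hr1 0
      rw [hβ0, hφ0, one_smul, map_zero, map_zero, add_zero] at h1
      exact h1
    have hr2 : ∀ j : ℕ, ‖φ (j + 1)‖ ≤ (j + 1) * δ ^ j * ‖φ 1‖ + δ * ‖φ j‖ := by
      intro j
      rw [hr1 j, ← hr0]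
      refine (norm_add_le _ _).trans (add_le_add ?_ ?_)
      · rw [norm_smul]
        exact mul_le_mul_of_nonneg_right (hβn j) (norm_nonneg _)
      · refine (hQn _).trans ((T.le_opNorm _).trans ?_)
        exact mul_le_mul_of_nonneg_right hT (norm_nonneg _)
    refine ⟨u 0, c, β, φ, fun j => ?_, huo 0, hφG, hφe, hβ0, hφ0, hβn, fun j => ?_, ?_⟩
    · have h1 : β j • u 0 + φ j = u j := by rw [hφ]; abel
      rw [h1, ← hu j]
      exact hc1 j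
    · induction j with
      | zero =>
        have := norm_nonneg (φ 1)
        simp only [zero_add, Nat.cast_zero, pow_zero, mul_one]
        nlinarith
      | succ j ih =>
        refine (hr2 (j + 1)).trans ?_
        have h1 : δ * ‖φ (j + 1)‖ ≤ δ * ((j + 2) ^ 2 * δ ^ j * ‖φ 1‖) :=
          mul_le_mul_of_nonneg_left ih hδ0
        have h2 : 0 ≤ δ ^ (j + 1) * ‖φ 1‖ := by positivity
        push_cast
        calc ((j : ℝ) + 1 + 1) * δ ^ (j + 1) * ‖φ 1‖ + δ * ‖φ (j + 1)‖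
            ≤ ((j : ℝ) + 1 + 1) * δ ^ (j + 1) * ‖φ 1‖ + δ * ((j + 2) ^ 2 * δ ^ j * ‖φ 1‖) := by
              linarith
          _ = (((j : ℝ) + 2) * (j + 3)) * (δ ^ (j + 1) * ‖φ 1‖) := by rw [pow_succ]; ring
          _ ≤ (((j : ℝ) + 1 + 2) ^ 2) * (δ ^ (j + 1) * ‖φ 1‖) := by
              refine mul_le_mul_of_nonneg_right ?_ h2
              have : (0 : ℝ) ≤ j := Nat.cast_nonneg j
              nlinarith
          _ = ((j : ℝ) + 1 + 2) ^ 2 * δ ^ (j + 1) * ‖φ 1‖ := by ring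
    · rw [← hQφ 1]
      refine (hQn _).trans ?_
      have h1 := hun 1
      simp only [Nat.cast_one, pow_one] at h1
      calc ‖u 1‖ ≤ (1 + 1) * δ * ‖u 0‖ := h1
        _ = 2 * δ * ‖u 0‖ := by ring

end Pool.Agent.Work.MP_0d53be_an.Full
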