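import Pool.Agent.Work.MP_0d53be_an.Full.Q.Pf
import Pool.Agent.Work.MP_0d53be_an.Full.Q.Dec
import Pool.Agent.Work.MP_0d53be_an.Pos

/-!
# Q/Fam: the families of operators and positivity

`Fam T B S`: `S : ℂ × ℂ →ₗ[ℝ] (H →L[ℂ] H)` is
`S c = c.1 T + c.2 T² + ∑_n τ_n(c) T^(n+3)` with `‖τ_n(c)‖ ≤ B 2^n ‖c‖`.
`vv : Fin 4 → ℂ × ℂ` is the real basis `(1,0), (I,0), (0,1), (0,I)`.
`K1 T G = Re Bf G (T G) (T G)/‖G‖⁴`,
`K2 T G = (Re Bf G (TG)(TG) * Re Bf G (T²G)(T²G) - ‖Bf G (TG)(T²G)‖²)/‖G‖⁸`,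
`Bf G A B = ⟪A, B⟫‖G‖² - ⟪A, G⟫⟪G, B⟫` (file `../Stokes.lean`; `Bf` kills the `G` components:
`Bf_add_left`, `Bf_self_left` etc. in `../Pos.lean`).

With the decomposition of Q/Dec: for `A = a G + ‖G‖ X`, `A' = a' G + ‖G‖ X'`, `X, X' ⊥ G`:
`Bf G A A' = ‖G‖⁴ ⟪X, X'⟫`. So `K1 T G = ‖e‖²`, and with `T² G = α₁ G + ‖G‖(β₁ e + φ₁)`:
`K2 T G = ‖e‖² (‖β₁‖²‖e‖² + ‖φ₁‖²) - ‖β₁‖²‖e‖⁴ = ‖e‖² ‖φ₁‖²`.

`fam_pos`: for every `B` there is `δ > 0` (`δ ≤ 1/10`) such that for `‖T‖ ≤ δ`, `Fam T B S`,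
`G ≠ 0`, with `a i j = 2 (Bf G (S (vv i) G) (S (vv j) G)).im/‖G‖⁴`:
`|a i j| ≤ 4 K1 T G`, `K1 T G ≤ a 0 1`, `2 K2 T G ≤ pf a`, and `‖S (vv i)‖ ≤ 1`.
Proof. `S (vv i) G = (...) G + ‖G‖ (x_i e + y_i)`, with (`τ` at `vv i`, `‖vv i‖ = 1`; the series
converges absolutely) `x_0 = 1 + ∑_n τ_n β_{n+2}`, `x_1 = I + ∑ …`, `x_2 = β_1 + ∑ …`,
`x_3 = I β_1 + ∑ …`, `y_0 = ∑_n τ_n φ_{n+2}`, `y_1 = ∑ …`, `y_2 = φ_1 + ∑ …`, `y_3 = I φ_1 + ∑ …`.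
`‖β_1‖ ≤ 2δ`, `∑_n B 2^n (n+3) δ^(n+2) ≤ C B δ²`, `∑_n B 2^n (n+3)² δ^(n+1) ‖φ_1‖ ≤ C B δ ‖φ_1‖`
(absolute `C`, for `δ ≤ 1/10`), `‖φ_1‖ ≤ 2δ‖e‖`. So `pf_pos` applies with
`κ = (2 + C (|B| + 1)) δ ≤ 1/100` and `φ = φ_1`; `a i j = 2 Im ⟪x_i e + y_i, x_j e + y_j⟫`, so
`|a i j| ≤ 4‖e‖²`, `a 0 1 ≥ ‖e‖²`, `pf a = 4 pf(Im⟪·,·⟫) ≥ 2‖e‖²‖φ_1‖²`. The norm bound:
`‖S (vv i)‖ ≤ δ + δ² + ∑ B 2^n δ^(n+3) ≤ 1`.
-/

set_option autoImplicit false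

namespace Pool.Agent.Work.MP_0d53be_an.Full

variable {H : Type*} [NormedAddCommGroup H] [InnerProductSpace ℂ H]

/-- Admissible families. -/
def Fam (T : H →L[ℂ] H) (B : ℝ) (S : ℂ × ℂ →ₗ[ℝ] (H →L[ℂ] H)) : Prop :=
  ∃ τ : ℕ → ℂ × ℂ → ℂ, (∀ n c, ‖τ n c‖ ≤ B * 2 ^ n * ‖c‖) ∧
    ∀ c, HasSum (fun n => τ n c • T ^ (n + 3)) (S c - (c.1 • T + c.2 • T ^ 2))

/-- The real basis. -/
noncomputable def vv : Fin 4 → ℂ × ℂ := ![(1, 0), (Complex.I, 0), (0, 1), (0, Complex.I)]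

/-- The first curvature. -/
noncomputable def K1 (T : H →L[ℂ] H) (G : H) : ℝ := (Bf G (T G) (T G)).re / ‖G‖ ^ 4

/-- The second curvature. -/
noncomputable def K2 (T : H →L[ℂ] H) (G : H) : ℝ :=
  ((Bf G (T G) (T G)).re * (Bf G (T (T G)) (T (T G))).re - ‖Bf G (T G) (T (T G))‖ ^ 2) / ‖G‖ ^ 8

private theorem Bf_comb {G X Y : H} (_hX : inner ℂ G X = 0) (hY : inner ℂ G Y = 0) (a b : ℂ) :
    Bf G (a • G + (‖G‖ : ℂ) • X) (b • G + (‖G‖ : ℂ) • Y) = ((‖G‖ ^ 4 : ℝ) : ℂ) * inner ℂ X Y := by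
  have h1 : Bf G X Y = inner ℂ X Y * (‖G‖ : ℂ) ^ 2 := by
    unfold Bf
    rw [hY, mul_zero, sub_zero]
  rw [Bf_add_left, Bf_add_right, Bf_add_right, Bf_smul_left, Bf_smul_left, Bf_smul_left, Bf_smul_left,
    Bf_smul_right, Bf_smul_right, Bf_smul_right, Bf_smul_right, Bf_self_left, Bf_self_left, Bf_self_right,
    h1, Complex.conj_ofReal]
  push_cast
  ring

private theorem K1_eq {T : H →L[ℂ] H} {G e : H} {a : ℂ} (hG : G ≠ 0) (he : inner ℂ G e = 0)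
    (h : T G = a • G + (‖G‖ : ℂ) • e) : K1 T G = ‖e‖ ^ 2 := by
  have hG0 : ‖G‖ ≠ 0 := norm_ne_zero_iff.mpr hG
  unfold K1
  rw [h, Bf_comb he he, ← nsq, ← Complex.ofReal_pow, ← Complex.ofReal_mul, Complex.ofReal_re]
  field_simp

/-- the second curvature in terms of the decomposition of Q/Dec. -/
theorem K2_eq_dec {T : H →L[ℂ] H} {G e φ : H} {a a' b : ℂ} (hG : G ≠ 0) (he : inner ℂ G e = 0)
    (hφ : inner ℂ G φ = 0) (heφ : inner ℂ e φ = 0)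
    (h : T G = a • G + (‖G‖ : ℂ) • e) (h' : T (T G) = a' • G + (‖G‖ : ℂ) • (b • e + φ)) :
    K2 T G = ‖e‖ ^ 2 * ‖φ‖ ^ 2 := by
  have hG0 : ‖G‖ ≠ 0 := norm_ne_zero_iff.mpr hG
  have hX : inner ℂ G (b • e + φ) = 0 := by
    rw [inner_add_right, inner_smul_right, he, hφ, mul_zero, add_zero]
  have heφ' : inner ℂ φ e = 0 := by
    rw [← inner_conj_symm, heφ, map_zero]
  have e1 : (Bf G (T G) (T G)).re = ‖G‖ ^ 4 * ‖e‖ ^ 2 := by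
    rw [h, Bf_comb he he, ← nsq, ← Complex.ofReal_pow, ← Complex.ofReal_mul, Complex.ofReal_re]
  have e2 : (inner ℂ (b • e + φ) (b • e + φ) : ℂ) = ((‖b‖ ^ 2 * ‖e‖ ^ 2 + ‖φ‖ ^ 2 : ℝ) : ℂ) := by
    rw [inner_add_left, inner_add_right, inner_add_right, inner_smul_left, inner_smul_right,
      inner_smul_left, inner_smul_right, heφ, heφ', ← nsq, ← nsq]
    have e3 : (starRingEnd ℂ) b * b = ((‖b‖ : ℝ) : ℂ) ^ 2 := Complex.conj_mul' b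
    push_cast
    linear_combination ((‖e‖ : ℝ) : ℂ) ^ 2 * e3
  have e4 : (Bf G (T (T G)) (T (T G))).re = ‖G‖ ^ 4 * (‖b‖ ^ 2 * ‖e‖ ^ 2 + ‖φ‖ ^ 2) := by
    rw [h', Bf_comb hX hX, e2, ← Complex.ofReal_mul, Complex.ofReal_re]
  have e5 : ‖Bf G (T G) (T (T G))‖ = ‖G‖ ^ 4 * (‖b‖ * ‖e‖ ^ 2) := by
    have e6 : (inner ℂ e (b • e + φ) : ℂ) = b * ((‖e‖ ^ 2 : ℝ) : ℂ) := by
      rw [inner_add_right, inner_smul_right, heφ, ← nsq, add_zero]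
      push_cast
      ring
    rw [h', h, Bf_comb he hX, e6, norm_mul, norm_mul, Complex.norm_real, Complex.norm_real,
      Real.norm_of_nonneg (by positivity), Real.norm_of_nonneg (by positivity)]
  unfold K2
  rw [e1, e4, e5]
  field_simp
  ring

private theorem three_le (n : ℕ) : ((n : ℝ) + 3) ≤ 3 * 2 ^ n := by
  induction n with
  | zero => norm_num
  | succ n ih =>
    have h1 : (0 : ℝ) ≤ n := Nat.cast_nonneg n
    push_cast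
    rw [pow_succ]
    linarith

private theorem geo {δ : ℝ} (h0 : 0 ≤ δ) (h1 : δ ≤ 1 / 16) (n : ℕ) : 8 ^ n * δ ^ n ≤ (1 / 2 : ℝ) ^ n := by
  rw [← mul_pow]
  exact pow_le_pow_left₀ (by positivity) (by linarith) n

private theorem ser_nrm {T A : H →L[ℂ] H} {δ b : ℝ} (hT : ‖T‖ ≤ δ) (hδ : δ ≤ 1 / 16) (hb : 0 ≤ b)
    {c : ℂ × ℂ} (hc : ‖c‖ ≤ 1) {τ : ℕ → ℂ} (hτ : ∀ n, ‖τ n‖ ≤ b * 2 ^ n)
    (h : HasSum (fun n => τ n • T ^ (n + 3)) (A - (c.1 • T + c.2 • T ^ 2))) :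
    ‖A‖ ≤ δ + δ ^ 2 + 2 * b * δ ^ 3 := by
  have h0 : 0 ≤ δ := (norm_nonneg T).trans hT
  have hTn : ∀ n : ℕ, ‖T ^ n‖ ≤ δ ^ n := by
    intro n
    rcases Nat.eq_zero_or_pos n with rfl | hn
    · rw [pow_zero, pow_zero]
      exact ContinuousLinearMap.norm_id_le
    · exact (norm_pow_le' T hn).trans (pow_le_pow_left₀ (norm_nonneg _) hT n)
  have hc1 : ‖c.1‖ ≤ 1 := (norm_fst_le c).trans hc
  have hc2 : ‖c.2‖ ≤ 1 := (norm_snd_le c).trans hc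
  have h1 : ‖A - (c.1 • T + c.2 • T ^ 2)‖ ≤ b * δ ^ 3 * 2 := by
    refine h.norm_le_of_bounded (hasSum_geometric_two.mul_left (b * δ ^ 3)) fun n => ?_
    rw [norm_smul]
    calc ‖τ n‖ * ‖T ^ (n + 3)‖ ≤ (b * 2 ^ n) * δ ^ (n + 3) :=
          mul_le_mul (hτ n) (hTn _) (norm_nonneg _) (by positivity)
      _ = b * δ ^ 3 * (2 ^ n * δ ^ n) := by ring
      _ ≤ b * δ ^ 3 * (8 ^ n * δ ^ n) := by gcongr; norm_num
      _ ≤ b * δ ^ 3 * (1 / 2) ^ n := by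
          refine mul_le_mul_of_nonneg_left (geo h0 hδ n) (by positivity)
  have h2 : ‖c.1 • T + c.2 • T ^ 2‖ ≤ δ + δ ^ 2 := by
    refine (norm_add_le _ _).trans (add_le_add ?_ ?_)
    · rw [norm_smul]
      calc ‖c.1‖ * ‖T‖ ≤ 1 * δ := mul_le_mul hc1 hT (norm_nonneg _) zero_le_one
        _ = δ := one_mul δ
    · rw [norm_smul]
      calc ‖c.2‖ * ‖T ^ 2‖ ≤ 1 * δ ^ 2 := mul_le_mul hc2 (hTn 2) (norm_nonneg _) zero_le_one
        _ = δ ^ 2 := one_mul _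
  have h3 : A = (A - (c.1 • T + c.2 • T ^ 2)) + (c.1 • T + c.2 • T ^ 2) := by abel
  rw [h3]
  refine (norm_add_le _ _).trans ?_
  linarith

private theorem ser {T A : H →L[ℂ] H} {δ b : ℝ} (h0 : 0 ≤ δ) (hδ : δ ≤ 1 / 16) (hb : 0 ≤ b)
    {G e : H} {α β : ℕ → ℂ} {φ : ℕ → H} (hG : G ≠ 0)
    (hdec : ∀ j, (T ^ (j + 1)) G = α j • G + (‖G‖ : ℂ) • (β j • e + φ j))
    (heG : inner ℂ G e = 0) (hφG : ∀ j, inner ℂ G (φ j) = 0) (hφe : ∀ j, inner ℂ e (φ j) = 0)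
    (hβ0 : β 0 = 1) (hφ0 : φ 0 = 0) (hβ : ∀ j : ℕ, ‖β j‖ ≤ (j + 1) * δ ^ j)
    (hφ : ∀ j : ℕ, ‖φ (j + 1)‖ ≤ (j + 2) ^ 2 * δ ^ j * ‖φ 1‖)
    {c : ℂ × ℂ} {τ : ℕ → ℂ} (hτ : ∀ n, ‖τ n‖ ≤ b * 2 ^ n)
    (h : HasSum (fun n => τ n • T ^ (n + 3)) (A - (c.1 • T + c.2 • T ^ 2))) :
    ∃ (a x' : ℂ) (y' : H), A G = a • G + (‖G‖ : ℂ) •
        ((c.1 + c.2 * β 1 + x') • e + (c.2 • φ 1 + y')) ∧
      inner ℂ G y' = 0 ∧ inner ℂ e y' = 0 ∧ ‖x'‖ ≤ 6 * b * δ ^ 2 ∧ ‖y'‖ ≤ 18 * b * δ * ‖φ 1‖ := by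
  have hG0 : ‖G‖ ≠ 0 := norm_ne_zero_iff.mpr hG
  have hGc : (‖G‖ : ℂ) ≠ 0 := Complex.ofReal_ne_zero.mpr hG0
  -- the series applied to G
  obtain ⟨Sg, hSg⟩ : ∃ Sg : H, Sg = A G - (c.1 • T G + c.2 • (T ^ 2) G) := ⟨_, rfl⟩
  have s1 : HasSum (fun n => τ n • (T ^ (n + 3)) G) Sg := by
    have h1 := (ContinuousLinearMap.apply ℂ H G).hasSum h
    rw [hSg]
    exact h1
  have hterm : ∀ n, τ n • (T ^ (n + 3)) G =
      (τ n * α (n + 2)) • G + (‖G‖ : ℂ) • (τ n • (β (n + 2) • e + φ (n + 2))) := by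
    intro n
    rw [hdec (n + 2), smul_add, smul_smul, smul_comm (τ n) (‖G‖ : ℂ)]
  have hin : ∀ n, inner ℂ G (β (n + 2) • e + φ (n + 2)) = 0 := by
    intro n
    rw [inner_add_right, inner_smul_right, heG, hφG, mul_zero, add_zero]
  -- the component along G
  have s2 : HasSum (fun n => τ n * α (n + 2)) (inner ℂ G Sg / (‖G‖ : ℂ) ^ 2) := by
    have h1 := ((innerSL ℂ G).hasSum s1).div_const ((‖G‖ : ℂ) ^ 2)
    refine h1.congr_fun ?_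
    intro n
    show τ n * α (n + 2) = inner ℂ G (τ n • (T ^ (n + 3)) G) / (‖G‖ : ℂ) ^ 2
    rw [hterm n, inner_add_right, inner_smul_right, inner_smul_right, inner_smul_right, hin n, ← nsq]
    field_simp
    ring
  obtain ⟨a', ha'⟩ : ∃ a' : ℂ, a' = inner ℂ G Sg / (‖G‖ : ℂ) ^ 2 := ⟨_, rfl⟩
  rw [← ha'] at s2
  -- the rest
  obtain ⟨Ξ, hΞ⟩ : ∃ Ξ : H, Ξ = (‖G‖ : ℂ)⁻¹ • (Sg - a' • G) := ⟨_, rfl⟩
  have s3 : HasSum (fun n => τ n • (β (n + 2) • e + φ (n + 2))) Ξ := by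
    have h1 := (s1.sub (s2.smul_const G)).const_smul ((‖G‖ : ℂ)⁻¹)
    rw [← hΞ] at h1
    refine h1.congr_fun ?_
    intro n
    show τ n • (β (n + 2) • e + φ (n + 2)) =
      (‖G‖ : ℂ)⁻¹ • (τ n • (T ^ (n + 3)) G - (τ n * α (n + 2)) • G)
    rw [hterm n, add_sub_cancel_left, smul_smul, inv_mul_cancel₀ hGc, one_smul]
  -- the component along e
  have hbβ : ∀ n : ℕ, ‖τ n * β (n + 2)‖ ≤ 3 * b * δ ^ 2 * (1 / 2) ^ n := by
    intro n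
    rw [norm_mul]
    have h2 := hβ (n + 2)
    have h3 : ((n + 2 : ℕ) : ℝ) + 1 = (n : ℝ) + 3 := by push_cast; ring
    rw [h3] at h2
    calc ‖τ n‖ * ‖β (n + 2)‖ ≤ (b * 2 ^ n) * (((n : ℝ) + 3) * δ ^ (n + 2)) :=
          mul_le_mul (hτ n) h2 (norm_nonneg _) (by positivity)
      _ ≤ (b * 2 ^ n) * ((3 * 2 ^ n) * δ ^ (n + 2)) := by
          gcongr
          exact three_le n
      _ = 3 * b * δ ^ 2 * ((2 * 2) ^ n * δ ^ n) := by rw [mul_pow]; ring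
      _ ≤ 3 * b * δ ^ 2 * (8 ^ n * δ ^ n) := by gcongr; norm_num
      _ ≤ 3 * b * δ ^ 2 * (1 / 2) ^ n := mul_le_mul_of_nonneg_left (geo h0 hδ n) (by positivity)
  have hg1 : HasSum (fun n : ℕ => 3 * b * δ ^ 2 * (1 / 2 : ℝ) ^ n) (3 * b * δ ^ 2 * 2) :=
    hasSum_geometric_two.mul_left _
  obtain ⟨x', s4⟩ : Summable (fun n => τ n * β (n + 2)) := Summable.of_norm_bounded hg1.summable hbβ
  have hx' : ‖x'‖ ≤ 3 * b * δ ^ 2 * 2 := s4.norm_le_of_bounded hg1 hbβ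
  have s5 : HasSum (fun n => τ n • φ (n + 2)) (Ξ - x' • e) := by
    refine (s3.sub (s4.smul_const e)).congr_fun ?_
    intro n
    show τ n • φ (n + 2) = τ n • (β (n + 2) • e + φ (n + 2)) - (τ n * β (n + 2)) • e
    rw [smul_add, smul_smul, add_sub_cancel_left]
  have hbφ : ∀ n : ℕ, ‖τ n • φ (n + 2)‖ ≤ 9 * b * δ * ‖φ 1‖ * (1 / 2) ^ n := by
    intro n
    rw [norm_smul]
    have h2 := hφ (n + 1)
    have h3 : ((n + 1 : ℕ) : ℝ) + 2 = (n : ℝ) + 3 := by push_cast; ring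
    rw [h3] at h2
    have e8 : (8 : ℝ) ^ n = 2 ^ n * 2 ^ n * 2 ^ n := by
      rw [← mul_pow, ← mul_pow]
      norm_num
    calc ‖τ n‖ * ‖φ (n + 2)‖ ≤ (b * 2 ^ n) * (((n : ℝ) + 3) ^ 2 * δ ^ (n + 1) * ‖φ 1‖) :=
          mul_le_mul (hτ n) h2 (norm_nonneg _) (by positivity)
      _ ≤ (b * 2 ^ n) * ((3 * 2 ^ n) ^ 2 * δ ^ (n + 1) * ‖φ 1‖) := by
          gcongr
          exact three_le n
      _ = 9 * b * δ * ‖φ 1‖ * (8 ^ n * δ ^ n) := by rw [e8]; ring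
      _ ≤ 9 * b * δ * ‖φ 1‖ * (1 / 2) ^ n := mul_le_mul_of_nonneg_left (geo h0 hδ n) (by positivity)
  have hg2 : HasSum (fun n : ℕ => 9 * b * δ * ‖φ 1‖ * (1 / 2 : ℝ) ^ n) (9 * b * δ * ‖φ 1‖ * 2) :=
    hasSum_geometric_two.mul_left _
  have hy' : ‖Ξ - x' • e‖ ≤ 9 * b * δ * ‖φ 1‖ * 2 := s5.norm_le_of_bounded hg2 hbφ
  have hort : ∀ u : H, (∀ j, inner ℂ u (φ j) = 0) → inner ℂ u (Ξ - x' • e) = 0 := by
    intro u hu
    have h1 := (innerSL ℂ u).hasSum s5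
    have h2 : (fun n => (innerSL ℂ u) (τ n • φ (n + 2))) = fun _ => 0 := by
      funext n
      show inner ℂ u (τ n • φ (n + 2)) = 0
      rw [inner_smul_right, hu, mul_zero]
    rw [h2] at h1
    exact h1.unique hasSum_zero
  refine ⟨c.1 * α 0 + c.2 * α 1 + a', x', Ξ - x' • e, ?_, hort G hφG, hort e hφe, ?_, ?_⟩
  · have hT1 : T G = α 0 • G + (‖G‖ : ℂ) • e := by
      have h1 := hdec 0
      rw [zero_add, pow_one, hβ0, hφ0, one_smul, add_zero] at h1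
      exact h1
    have hT2 : (T ^ 2) G = α 1 • G + (‖G‖ : ℂ) • (β 1 • e + φ 1) := hdec 1
    have hA : A G = Sg + (c.1 • T G + c.2 • (T ^ 2) G) := by rw [hSg]; abel
    have hS : Sg = a' • G + (‖G‖ : ℂ) • Ξ := by
      rw [hΞ, smul_smul, mul_inv_cancel₀ hGc, one_smul]
      abel
    rw [hA, hS, hT1, hT2]
    module
  · linarith
  · linarith

theorem fam_pos (B : ℝ) : ∃ δ : ℝ, 0 < δ ∧ δ ≤ 1 / 10 ∧
    ∀ {H : Type} [NormedAddCommGroup H] [InnerProductSpace ℂ H] (T : H →L[ℂ] H), ‖T‖ ≤ δ →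
    ∀ S : ℂ × ℂ →ₗ[ℝ] (H →L[ℂ] H), Fam T B S → (∀ i, ‖S (vv i)‖ ≤ 1) ∧ ∀ G : H, G ≠ 0 →
      (∀ i j, |2 * (Bf G (S (vv i) G) (S (vv j) G)).im / ‖G‖ ^ 4| ≤ 4 * K1 T G) ∧
      K1 T G ≤ 2 * (Bf G (S (vv 0) G) (S (vv 1) G)).im / ‖G‖ ^ 4 ∧
      0 ≤ K2 T G ∧
      2 * K2 T G ≤ pf (fun i j => 2 * (Bf G (S (vv i) G) (S (vv j) G)).im / ‖G‖ ^ 4) := by
  have hB0 : 0 ≤ |B| := abs_nonneg B
  obtain ⟨δ, hδdef⟩ : ∃ δ : ℝ, δ = 1 / (2000 * (|B| + 1)) := ⟨_, rfl⟩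
  have hpos : (0 : ℝ) < 2000 * (|B| + 1) := by positivity
  have hδ0 : 0 < δ := by rw [hδdef]; positivity
  have hδm : δ * (2000 * (|B| + 1)) = 1 := by
    rw [hδdef]
    field_simp
  have hδB : 0 ≤ δ * |B| := by positivity
  have hδ1 : δ ≤ 1 / 2000 := by linarith
  have hδB1 : |B| * δ ≤ 1 / 2000 := by linarith
  have hsq : |B| * δ ^ 2 ≤ 1 / 2000 := by
    have : |B| * δ ^ 2 = (|B| * δ) * δ := by ring
    rw [this]
    have h1 : (|B| * δ) * δ ≤ (1 / 2000) * 1 := by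
      apply mul_le_mul hδB1 (by linarith) hδ0.le (by norm_num)
    linarith
  refine ⟨δ, hδ0, by linarith, ?_⟩
  intro H _ _ T hT S hS
  obtain ⟨τ, hτ, hsum⟩ := hS
  have hvn : ∀ i : Fin 4, ‖vv i‖ ≤ 1 := by
    intro i
    fin_cases i <;> simp [vv, Prod.norm_def]
  have hτ' : ∀ (i : Fin 4) (n : ℕ), ‖τ n (vv i)‖ ≤ |B| * 2 ^ n := by
    intro i n
    refine (hτ n (vv i)).trans ?_
    calc B * 2 ^ n * ‖vv i‖ ≤ |B| * 2 ^ n * ‖vv i‖ := by gcongr; exact le_abs_self B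
      _ ≤ |B| * 2 ^ n * 1 := by gcongr; exact hvn i
      _ = |B| * 2 ^ n := mul_one _
  constructor
  · intro i
    have h1 := ser_nrm hT (by linarith : δ ≤ 1 / 16) hB0 (hvn i) (hτ' i) (hsum (vv i))
    have h2 : |B| * δ ^ 3 ≤ 1 / 2000 := by
      have : |B| * δ ^ 3 = (|B| * δ ^ 2) * δ := by ring
      rw [this]
      have h3 : (|B| * δ ^ 2) * δ ≤ (1 / 2000) * 1 := by
        apply mul_le_mul hsq (by linarith) hδ0.le (by norm_num)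
      linarith
    have h3 : δ ^ 2 ≤ 1 / 2000 := by
      have : δ ^ 2 = δ * δ := sq δ
      rw [this]
      have h4 : δ * δ ≤ (1 / 2000) * 1 := by
        apply mul_le_mul hδ1 (by linarith) hδ0.le (by norm_num)
      linarith
    linarith
  intro G hG
  obtain ⟨e, α, β, φ, hdec, heG, hφG, hφe, hβ0, hφ0, hβ, hφ, hφ1⟩ := decomp hT (by linarith) hG
  have hser := fun i => ser hδ0.le (by linarith : δ ≤ 1 / 16) hB0 hG hdec heG hφG hφe hβ0 hφ0 hβ hφ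
    (hτ' i) (hsum (vv i))
  choose a x' y' hA hy'G hy'e hx'n hy'n using hser
  obtain ⟨x, hx⟩ : ∃ x : Fin 4 → ℂ, ∀ i, x i = (vv i).1 + (vv i).2 * β 1 + x' i := ⟨_, fun i => rfl⟩
  obtain ⟨y, hy⟩ : ∃ y : Fin 4 → H, ∀ i, y i = (vv i).2 • φ 1 + y' i := ⟨_, fun i => rfl⟩
  have hx's : ∀ i, ‖x' i‖ ≤ 1 / 200 := by
    intro i
    have := hx'n i
    linarith
  have hy's : ∀ i, ‖y' i‖ ≤ 1 / 100 * ‖φ 1‖ := by
    intro i
    refine (hy'n i).trans ?_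
    refine mul_le_mul_of_nonneg_right ?_ (norm_nonneg _)
    linarith
  have hβ1 : ‖β 1‖ ≤ 1 / 1000 := by
    have h1 := hβ 1
    norm_num at h1
    linarith
  have v0 : vv 0 = (1, 0) := rfl
  have v1 : vv 1 = (Complex.I, 0) := rfl
  have v2 : vv 2 = (0, 1) := rfl
  have v3 : vv 3 = (0, Complex.I) := rfl
  have hφκ : ‖φ 1‖ ≤ 1 / 100 * ‖e‖ := by
    refine hφ1.trans ?_
    refine mul_le_mul_of_nonneg_right ?_ (norm_nonneg _)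
    linarith
  have hye : ∀ i, inner ℂ e (y i) = 0 := by
    intro i
    rw [hy, inner_add_right, inner_smul_right, hφe, hy'e, mul_zero, add_zero]
  have hyG : ∀ i, inner ℂ G (y i) = 0 := by
    intro i
    rw [hy, inner_add_right, inner_smul_right, hφG, hy'G, mul_zero, add_zero]
  have hEG : ∀ i, inner ℂ G (x i • e + y i) = 0 := by
    intro i
    rw [inner_add_right, inner_smul_right, heG, hyG, mul_zero, add_zero]
  obtain ⟨p1, p2, p3⟩ := pf_pos (e := e) (φ := φ 1) (x := x) (y := y) (κ := 1 / 100) (by norm_num)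
    le_rfl hφκ hye
    (by
      rw [hx, v0]
      have : (1 : ℂ) + 0 * β 1 + x' 0 - 1 = x' 0 := by ring
      simp only
      rw [this]
      linarith [hx's 0])
    (by
      rw [hx, v1]
      have : Complex.I + 0 * β 1 + x' 1 - Complex.I = x' 1 := by ring
      simp only
      rw [this]
      linarith [hx's 1])
    (by
      rw [hx, v2]
      simp only
      have : (0 : ℂ) + 1 * β 1 + x' 2 = β 1 + x' 2 := by ring
      rw [this]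
      refine (norm_add_le _ _).trans ?_
      linarith [hx's 2])
    (by
      rw [hx, v3]
      simp only
      have : (0 : ℂ) + Complex.I * β 1 + x' 3 = Complex.I * β 1 + x' 3 := by ring
      rw [this]
      refine (norm_add_le _ _).trans ?_
      rw [norm_mul, Complex.norm_I, one_mul]
      linarith [hx's 3])
    (by
      rw [hy, v0]
      simp only [zero_smul, zero_add]
      exact hy's 0)
    (by
      rw [hy, v1]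
      simp only [zero_smul, zero_add]
      exact hy's 1)
    (by
      rw [hy, v2]
      simp only [one_smul, add_sub_cancel_left]
      exact hy's 2)
    (by
      rw [hy, v3]
      simp only [add_sub_cancel_left]
      exact hy's 3)
  have hG0 : ‖G‖ ≠ 0 := norm_ne_zero_iff.mpr hG
  have hSG : ∀ i, S (vv i) G = a i • G + (‖G‖ : ℂ) • (x i • e + y i) := by
    intro i
    rw [hA i, hx, hy]
  have hBf : ∀ i j, 2 * (Bf G (S (vv i) G) (S (vv j) G)).im / ‖G‖ ^ 4 =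
      2 * (inner ℂ (x i • e + y i) (x j • e + y j) : ℂ).im := by
    intro i j
    rw [hSG, hSG, Bf_comb (hEG i) (hEG j), Complex.im_ofReal_mul]
    field_simp
  have hT1 : T G = α 0 • G + (‖G‖ : ℂ) • e := by
    have h1 := hdec 0
    rw [zero_add, pow_one, hβ0, hφ0, one_smul, add_zero] at h1
    exact h1
  have hT2 : T (T G) = α 1 • G + (‖G‖ : ℂ) • (β 1 • e + φ 1) := by
    have h1 := hdec 1
    rw [← h1]
    rfl
  have hK1 : K1 T G = ‖e‖ ^ 2 := K1_eq hG heG hT1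
  have hK2 : K2 T G = ‖e‖ ^ 2 * ‖φ 1‖ ^ 2 := K2_eq_dec hG heG (hφG 1) (hφe 1) hT1 hT2
  refine ⟨?_, ?_, ?_, ?_⟩
  · intro i j
    rw [hBf, hK1, abs_mul, abs_of_pos (by norm_num : (0 : ℝ) < 2)]
    linarith [p1 i j]
  · rw [hBf, hK1]
    linarith
  · rw [hK2]
    positivity
  · have h1 : (fun i j => 2 * (Bf G (S (vv i) G) (S (vv j) G)).im / ‖G‖ ^ 4) =
        fun i j => 2 * (inner ℂ (x i • e + y i) (x j • e + y j) : ℂ).im := by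
      funext i j
      exact hBf i j
    rw [h1, hK2]
    unfold pf at p3 ⊢
    nlinarith [p3]

end Pool.Agent.Work.MP_0d53be_an.Full
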