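import Pool.Agent.Work.MP_0d53be_an.Full.Q.Phi

/-!
# Q/Int: the integrals of the curvatures

There is an absolute constant `C` such that for every `B` there is `δ > 0` with: `‖T‖ ≤ δ`,
`Fam T B S`, `y ≠ 0`, `L ≥ 1` imply
`∫_{‖c‖ ≤ L} K1 T (Phi c) ≤ C L³` and `∫_{‖c‖ ≤ L} K2 T (Phi c) ≤ C L²`
(`‖(c₁, c₂)‖ = max`, Lebesgue measure on `ℂ × ℂ`).

Proof. `δ` from `fam_pos`. Fix a smooth `χ : ℂ × ℂ → ℝ` with compact support, `0 ≤ χ ≤ 1`, `χ = 1` on
`‖c‖ ≤ 1`, `χ = 0` for `‖c‖ > 2` (`ContDiffBump` with radii `1`, `2`), and `M` with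
`‖fderiv ℝ χ c‖ ≤ M` for all `c` (continuous with compact support). `χ_L(c) = χ(c/L)`:
`‖fderiv χ_L‖ ≤ M/L`, zero for `‖c‖ > 2L`. `‖vv i‖ = 1`. `V(L) = vol(‖c‖ ≤ 2L) = L⁴ vol(‖c‖ ≤ 2)`
(`Measure.addHaar_closedBall` / scaling, real dimension 4).
(1) With `a i j = omg (tht) vv i j c` (`omg_eq`): `K1 ≤ a 0 1`, `0 ≤ K1` (from `|a 0 0| ≤ 4 K1`). So
`∫_{‖c‖≤L} K1 ≤ ∫ χ_L K1 ≤ ∫ χ_L a 0 1 = -∫ (Dχ_L(v 0) θ 1 - Dχ_L(v 1) θ 0) ≤ 2 (M/L) V(L) = C₁ L³`
(`stokes_two`, `tht_le`). All functions are continuous.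
(2) `2 K2 ≤ pf a`, `0 ≤ K2`. By `stokes_four`, with `|tri| ≤ 3 * 1 * 4 K1 = 12 K1`:
`∫_{‖c‖≤L} K2 ≤ ∫ χ_L K2 ≤ (1/2) ∫ χ_L pf a ≤ (1/4) * 4 * (M/L) ∫_{‖c‖ ≤ 2L} 12 K1
≤ 12 (M/L) C₁ (2L)³ = C₂ L²`.
(`∫_{‖c‖≤2L} K1 ≤ C₁ (2L)³` by (1) for `2L`.)
-/

set_option autoImplicit false

namespace Pool.Agent.Work.MP_0d53be_an.Full

open MeasureTheory

private theorem norm_vv (i : Fin 4) : ‖vv i‖ = 1 := by
  fin_cases i <;> simp [vv, Prod.norm_def]

private theorem cutoff : ∃ M : ℝ, 0 ≤ M ∧ ∀ L : ℝ, 1 ≤ L → ∃ χ : ℂ × ℂ → ℝ,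
    ContDiff ℝ 1 χ ∧ HasCompactSupport χ ∧ (∀ c, 0 ≤ χ c) ∧
    (∀ c ∈ Metric.closedBall (0 : ℂ × ℂ) L, χ c = 1) ∧
    (∀ c ∉ Metric.closedBall (0 : ℂ × ℂ) (2 * L), ∀ u, fderiv ℝ χ c u = 0) ∧
    ∀ c i, |fderiv ℝ χ c (vv i)| ≤ M / L := by
  let f : ContDiffBump (0 : ℂ × ℂ) := ⟨1, 2, by norm_num, by norm_num⟩
  have hf : ContDiff ℝ 1 f := f.contDiff
  have hfc : Continuous (fderiv ℝ f) := hf.continuous_fderiv one_ne_zero
  obtain ⟨M, hM⟩ := hfc.bounded_above_of_compact_support (f.hasCompactSupport.fderiv ℝ)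
  have hM0 : 0 ≤ M := (norm_nonneg _).trans (hM 0)
  refine ⟨M, hM0, fun L hL => ?_⟩
  have hL0 : 0 < L := by linarith
  have hL1 : L⁻¹ ≠ 0 := inv_ne_zero hL0.ne'
  have hd : ∀ c, HasFDerivAt (fun c : ℂ × ℂ => f (L⁻¹ • c))
      ((fderiv ℝ f (L⁻¹ • c)).comp (L⁻¹ • ContinuousLinearMap.id ℝ (ℂ × ℂ))) c := by
    intro c
    have h1 : HasFDerivAt f (fderiv ℝ f (L⁻¹ • c)) (L⁻¹ • c) :=
      ((hf.differentiable one_ne_zero) _).hasFDerivAt
    have h2 : HasFDerivAt (fun c : ℂ × ℂ => L⁻¹ • c)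
        (L⁻¹ • ContinuousLinearMap.id ℝ (ℂ × ℂ)) c := (hasFDerivAt_id c).const_smul L⁻¹
    exact h1.comp c h2
  have hv : ∀ c u, fderiv ℝ (fun c : ℂ × ℂ => f (L⁻¹ • c)) c u
      = L⁻¹ * fderiv ℝ f (L⁻¹ • c) u := by
    intro c u
    rw [(hd c).fderiv]
    simp
  have hnorm : ∀ c : ℂ × ℂ, ‖L⁻¹ • c‖ = ‖c‖ / L := by
    intro c
    rw [norm_smul, norm_inv, Real.norm_eq_abs, abs_of_pos hL0, inv_mul_eq_div]
  refine ⟨fun c => f (L⁻¹ • c), ?_, ?_, fun c => f.nonneg, ?_, ?_, ?_⟩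
  · exact hf.comp (contDiff_const_smul _)
  · exact f.hasCompactSupport.comp_smul hL1
  · intro c hc
    refine f.one_of_mem_closedBall ?_
    rw [mem_closedBall_zero_iff] at hc ⊢
    rw [hnorm]
    exact (div_le_one hL0).2 hc
  · intro c hc u
    rw [hv]
    have h1 : L⁻¹ • c ∉ tsupport f := by
      rw [f.tsupport_eq]
      intro h2
      apply hc
      rw [mem_closedBall_zero_iff] at h2 ⊢
      rw [hnorm] at h2
      have h3 := (div_le_iff₀ hL0).1 h2
      exact h3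
    have h2 : fderiv ℝ f (L⁻¹ • c) = 0 := by
      by_contra h3
      exact h1 (support_fderiv_subset ℝ (Function.mem_support.2 h3))
    rw [h2]
    simp
  · intro c i
    rw [hv, abs_mul, abs_of_pos (inv_pos.2 hL0), div_eq_inv_mul]
    refine mul_le_mul_of_nonneg_left ?_ (inv_pos.2 hL0).le
    have h1 := (fderiv ℝ f (L⁻¹ • c)).le_opNorm (vv i)
    rw [norm_vv, mul_one] at h1
    exact h1.trans (hM _)

private theorem haar_vol : (volume : Measure (ℂ × ℂ)).IsAddHaarMeasure :=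
  inferInstanceAs ((volume : Measure ℂ).prod (volume : Measure ℂ)).IsAddHaarMeasure

private theorem vol_ball (L : ℝ) (hL : 0 ≤ L) :
    (volume : Measure (ℂ × ℂ)).real (Metric.closedBall 0 L) =
      L ^ 4 * (volume : Measure (ℂ × ℂ)).real (Metric.ball 0 1) := by
  haveI := haar_vol
  rw [Measure.real, Measure.addHaar_closedBall _ _ hL, ENNReal.toReal_mul,
    ENNReal.toReal_ofReal (by positivity)]
  congr 2
  rw [Module.finrank_prod, Complex.finrank_real_complex]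

private theorem int_abs : ∃ C : ℝ, 0 ≤ C ∧ ∀ (θ : Fin 4 → ℂ × ℂ → ℝ)
    (_ : ∀ i, ContDiff ℝ 2 (θ i)) (_ : ∀ i c, |θ i c| ≤ 1) (k1 k2 : ℂ × ℂ → ℝ)
    (_ : Continuous k1) (_ : Continuous k2) (_ : ∀ i j c, |omg θ vv i j c| ≤ 4 * k1 c)
    (_ : ∀ c, k1 c ≤ omg θ vv 0 1 c) (_ : ∀ c, 0 ≤ k2 c)
    (_ : ∀ c, 2 * k2 c ≤ pf (fun i j => omg θ vv i j c)) (L : ℝ) (_ : 1 ≤ L),
    ∫ c in Metric.closedBall (0 : ℂ × ℂ) L, k1 c ≤ C * L ^ 3 ∧
    ∫ c in Metric.closedBall (0 : ℂ × ℂ) L, k2 c ≤ C * L ^ 2 := by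
  haveI := haar_vol
  obtain ⟨M, hM0, hM⟩ := cutoff
  set V : ℝ := (volume : Measure (ℂ × ℂ)).real (Metric.ball 0 1) with hV
  have hV0 : 0 ≤ V := measureReal_nonneg
  have h1 : ∀ (θ : Fin 4 → ℂ × ℂ → ℝ)
    (_ : ∀ i, ContDiff ℝ 2 (θ i)) (_ : ∀ i c, |θ i c| ≤ 1) (k1 : ℂ × ℂ → ℝ)
    (_ : Continuous k1) (_ : ∀ i j c, |omg θ vv i j c| ≤ 4 * k1 c)
    (_ : ∀ c, k1 c ≤ omg θ vv 0 1 c) (L : ℝ) (_ : 1 ≤ L),
    ∫ c in Metric.closedBall (0 : ℂ × ℂ) L, k1 c ≤ (32 * M * V) * L ^ 3 := by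
    intro θ hθ hb k1 hk1 ha hpos L hL
    have hL0 : 0 < L := by linarith
    obtain ⟨χ, hχ, hs, hn, h1, h0, hd⟩ := hM L hL
    have hk0 : ∀ c, 0 ≤ k1 c := by
      intro c
      have h2 := ha 0 0 c
      have h3 := abs_nonneg (omg θ vv 0 0 c)
      linarith
    have hoc : Continuous (fun c => omg θ vv 0 1 c) := by
      unfold omg
      have h2 : ∀ i, Continuous (fun c => fderiv ℝ (θ i) c) := fun i =>
        (hθ i).continuous_fderiv two_ne_zero
      exact ((h2 1).clm_apply continuous_const).sub ((h2 0).clm_apply continuous_const)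
    have e1 : ∫ c in Metric.closedBall (0 : ℂ × ℂ) L, k1 c
        = ∫ c in Metric.closedBall (0 : ℂ × ℂ) L, χ c * k1 c := by
      refine setIntegral_congr_fun Metric.isClosed_closedBall.measurableSet (fun c hc => ?_)
      rw [h1 c hc, one_mul]
    have i1 : Integrable (fun c => χ c * k1 c) :=
      (hχ.continuous.mul hk1).integrable_of_hasCompactSupport hs.mul_right
    have i2 : Integrable (fun c => χ c * omg θ vv 0 1 c) :=
      (hχ.continuous.mul hoc).integrable_of_hasCompactSupport hs.mul_right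
    have e2 : ∫ c in Metric.closedBall (0 : ℂ × ℂ) L, χ c * k1 c ≤ ∫ c, χ c * k1 c :=
      setIntegral_le_integral i1 (Filter.Eventually.of_forall fun c => mul_nonneg (hn c) (hk0 c))
    have e3 : ∫ c, χ c * k1 c ≤ ∫ c, χ c * omg θ vv 0 1 c :=
      integral_mono i1 i2 (fun c => mul_le_mul_of_nonneg_left (hpos c) (hn c))
    have e4 := stokes_two volume hθ hχ hs vv 0 1
    have e5 : ∫ c, (fderiv ℝ χ c (vv 0) * θ 1 c - fderiv ℝ χ c (vv 1) * θ 0 c)
        = ∫ c in Metric.closedBall (0 : ℂ × ℂ) (2 * L),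
          (fderiv ℝ χ c (vv 0) * θ 1 c - fderiv ℝ χ c (vv 1) * θ 0 c) := by
      symm
      refine setIntegral_eq_integral_of_forall_compl_eq_zero (fun c hc => ?_)
      rw [h0 c hc, h0 c hc]
      ring
    have e6 : ‖∫ c in Metric.closedBall (0 : ℂ × ℂ) (2 * L),
          (fderiv ℝ χ c (vv 0) * θ 1 c - fderiv ℝ χ c (vv 1) * θ 0 c)‖
        ≤ (2 * (M / L)) * (volume : Measure (ℂ × ℂ)).real (Metric.closedBall 0 (2 * L)) := by
      refine norm_setIntegral_le_of_norm_le_const ?_ (fun c _ => ?_)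
      · exact (isCompact_closedBall _ _).measure_lt_top
      · rw [Real.norm_eq_abs]
        have hML : 0 ≤ M / L := div_nonneg hM0 hL0.le
        have a1 : |fderiv ℝ χ c (vv 0) * θ 1 c| ≤ M / L := by
          rw [abs_mul]
          calc |fderiv ℝ χ c (vv 0)| * |θ 1 c| ≤ (M / L) * 1 :=
                mul_le_mul (hd c 0) (hb 1 c) (abs_nonneg _) hML
            _ = M / L := mul_one _
        have a2 : |fderiv ℝ χ c (vv 1) * θ 0 c| ≤ M / L := by
          rw [abs_mul]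
          calc |fderiv ℝ χ c (vv 1)| * |θ 0 c| ≤ (M / L) * 1 :=
                mul_le_mul (hd c 1) (hb 0 c) (abs_nonneg _) hML
            _ = M / L := mul_one _
        have a3 := abs_sub (fderiv ℝ χ c (vv 0) * θ 1 c) (fderiv ℝ χ c (vv 1) * θ 0 c)
        linarith
    rw [vol_ball (2 * L) (by positivity), ← hV] at e6
    have e7 : (2 * (M / L)) * ((2 * L) ^ 4 * V) = (32 * M * V) * L ^ 3 := by
      field_simp
      ring
    rw [e7] at e6
    rw [Real.norm_eq_abs] at e6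
    have e8 := neg_abs_le (∫ c in Metric.closedBall (0 : ℂ × ℂ) (2 * L),
          (fderiv ℝ χ c (vv 0) * θ 1 c - fderiv ℝ χ c (vv 1) * θ 0 c))
    rw [e1]
    rw [e4, e5] at e3
    linarith
  have hC1 : 0 ≤ 32 * M * V := by positivity
  refine ⟨32 * M * V + 96 * M * (32 * M * V), by positivity, ?_⟩
  intro θ hθ hb k1 k2 hk1 hk2 ha hpos hk20 hpf L hL
  have hL0 : 0 < L := by linarith
  constructor
  · refine (h1 θ hθ hb k1 hk1 ha hpos L hL).trans ?_
    refine mul_le_mul_of_nonneg_right ?_ (by positivity)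
    have : 0 ≤ 96 * M * (32 * M * V) := by positivity
    linarith
  · obtain ⟨χ, hχ, hs, hn, h1', h0, hd⟩ := hM L hL
    have hk0 : ∀ c, 0 ≤ k1 c := by
      intro c
      have h2 := ha 0 0 c
      have h3 := abs_nonneg (omg θ vv 0 0 c)
      linarith
    have hoc : ∀ i j, Continuous (fun c => omg θ vv i j c) := by
      intro i j
      unfold omg
      have h2 : ∀ i, Continuous (fun c => fderiv ℝ (θ i) c) := fun i =>
        (hθ i).continuous_fderiv two_ne_zero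
      exact ((h2 j).clm_apply continuous_const).sub ((h2 i).clm_apply continuous_const)
    have hpc : Continuous (fun c => pf (fun i j => omg θ vv i j c)) := by
      unfold pf
      exact (((hoc 0 1).mul (hoc 2 3)).sub ((hoc 0 2).mul (hoc 1 3))).add
        ((hoc 0 3).mul (hoc 1 2))
    have e1 : ∫ c in Metric.closedBall (0 : ℂ × ℂ) L, k2 c
        = ∫ c in Metric.closedBall (0 : ℂ × ℂ) L, χ c * k2 c := by
      refine setIntegral_congr_fun Metric.isClosed_closedBall.measurableSet (fun c hc => ?_)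
      rw [h1' c hc, one_mul]
    have i1 : Integrable (fun c => χ c * k2 c) :=
      (hχ.continuous.mul hk2).integrable_of_hasCompactSupport hs.mul_right
    have i2 : Integrable (fun c => χ c * (2 * pf (fun i j => omg θ vv i j c))) :=
      (hχ.continuous.mul (continuous_const.mul hpc)).integrable_of_hasCompactSupport hs.mul_right
    have e2 : ∫ c in Metric.closedBall (0 : ℂ × ℂ) L, χ c * k2 c ≤ ∫ c, χ c * k2 c :=
      setIntegral_le_integral i1
        (Filter.Eventually.of_forall fun c => mul_nonneg (hn c) (hk20 c))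
    have e3 : ∫ c, 4 * (χ c * k2 c) ≤ ∫ c, χ c * (2 * pf (fun i j => omg θ vv i j c)) := by
      refine integral_mono (i1.const_mul 4) i2 (fun c => ?_)
      simp only
      have h2 := mul_le_mul_of_nonneg_left (hpf c) (hn c)
      linarith
    rw [integral_const_mul] at e3
    have e4 := stokes_four volume hθ hχ hs vv
    set g : ℂ × ℂ → ℝ := fun c => fderiv ℝ χ c (vv 0) * tri θ vv 1 2 3 c -
        fderiv ℝ χ c (vv 1) * tri θ vv 0 2 3 c +
        fderiv ℝ χ c (vv 2) * tri θ vv 0 1 3 c - fderiv ℝ χ c (vv 3) * tri θ vv 0 1 2 c with hg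
    have e5 : ∫ c, g c = ∫ c in Metric.closedBall (0 : ℂ × ℂ) (2 * L), g c := by
      symm
      refine setIntegral_eq_integral_of_forall_compl_eq_zero (fun c hc => ?_)
      rw [hg]
      simp only
      rw [h0 c hc, h0 c hc, h0 c hc, h0 c hc]
      ring
    have hML : 0 ≤ M / L := div_nonneg hM0 hL0.le
    have htri : ∀ j k l c, |tri θ vv j k l c| ≤ 12 * k1 c := by
      intro j k l c
      have b1 : ∀ a b d, |θ a c * omg θ vv b d c| ≤ 4 * k1 c := by
        intro a b d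
        rw [abs_mul]
        calc |θ a c| * |omg θ vv b d c| ≤ 1 * (4 * k1 c) :=
              mul_le_mul (hb a c) (ha b d c) (abs_nonneg _) zero_le_one
          _ = 4 * k1 c := one_mul _
      unfold tri
      have b2 := abs_add_le (θ j c * omg θ vv k l c - θ k c * omg θ vv j l c)
        (θ l c * omg θ vv j k c)
      have b3 := abs_sub (θ j c * omg θ vv k l c) (θ k c * omg θ vv j l c)
      linarith [b1 j k l, b1 k j l, b1 l j k]
    have hgb : ∀ c, ‖g c‖ ≤ 48 * (M / L) * k1 c := by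
      intro c
      rw [Real.norm_eq_abs, hg]
      simp only
      have b1 : ∀ i j k l, |fderiv ℝ χ c (vv i) * tri θ vv j k l c| ≤ (M / L) * (12 * k1 c) := by
        intro i j k l
        rw [abs_mul]
        exact mul_le_mul (hd c i) (htri j k l c) (abs_nonneg _) hML
      have b2 := abs_sub (fderiv ℝ χ c (vv 0) * tri θ vv 1 2 3 c -
        fderiv ℝ χ c (vv 1) * tri θ vv 0 2 3 c +
        fderiv ℝ χ c (vv 2) * tri θ vv 0 1 3 c) (fderiv ℝ χ c (vv 3) * tri θ vv 0 1 2 c)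
      have b3 := abs_add_le (fderiv ℝ χ c (vv 0) * tri θ vv 1 2 3 c -
        fderiv ℝ χ c (vv 1) * tri θ vv 0 2 3 c) (fderiv ℝ χ c (vv 2) * tri θ vv 0 1 3 c)
      have b4 := abs_sub (fderiv ℝ χ c (vv 0) * tri θ vv 1 2 3 c)
        (fderiv ℝ χ c (vv 1) * tri θ vv 0 2 3 c)
      linarith [b1 0 1 2 3, b1 1 0 2 3, b1 2 0 1 3, b1 3 0 1 2]
    have i3 : IntegrableOn (fun c => 48 * (M / L) * k1 c)
        (Metric.closedBall (0 : ℂ × ℂ) (2 * L)) :=
      (continuous_const.mul hk1).continuousOn.integrableOn_compact (isCompact_closedBall _ _)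
    have e6 : ‖∫ c in Metric.closedBall (0 : ℂ × ℂ) (2 * L), g c‖
        ≤ ∫ c in Metric.closedBall (0 : ℂ × ℂ) (2 * L), 48 * (M / L) * k1 c :=
      norm_integral_le_of_norm_le i3 (Filter.Eventually.of_forall hgb)
    rw [integral_const_mul] at e6
    have e7 := h1 θ hθ hb k1 hk1 ha hpos (2 * L) (by linarith)
    have e8 : 48 * (M / L) * ∫ c in Metric.closedBall (0 : ℂ × ℂ) (2 * L), k1 c
        ≤ 48 * (M / L) * ((32 * M * V) * (2 * L) ^ 3) :=
      mul_le_mul_of_nonneg_left e7 (by positivity)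
    have e9 : 48 * (M / L) * ((32 * M * V) * (2 * L) ^ 3)
        = 4 * ((96 * M * (32 * M * V)) * L ^ 2) := by
      field_simp
      ring
    rw [Real.norm_eq_abs] at e6
    have e10 := neg_abs_le (∫ c in Metric.closedBall (0 : ℂ × ℂ) (2 * L), g c)
    rw [e4, e5] at e3
    have e11 : (0 : ℝ) ≤ (32 * M * V) * L ^ 2 := by positivity
    have e12 : (32 * M * V + 96 * M * (32 * M * V)) * L ^ 2
        = (32 * M * V) * L ^ 2 + (96 * M * (32 * M * V)) * L ^ 2 := by ring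
    rw [e12, e1]
    linarith

private theorem Bf_cont {H : Type*} [NormedAddCommGroup H] [InnerProductSpace ℂ H]
    {G A B : ℂ × ℂ → H} (hG : Continuous G) (hA : Continuous A) (hB : Continuous B) :
    Continuous (fun c => Bf (G c) (A c) (B c)) := by
  unfold Bf
  exact ((hA.inner hB).mul ((Complex.continuous_ofReal.comp hG.norm).pow 2)).sub
    ((hA.inner hG).mul (hG.inner hB))

private theorem K1_cont {H : Type*} [NormedAddCommGroup H] [InnerProductSpace ℂ H]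
    (T : H →L[ℂ] H) {G : ℂ × ℂ → H} (hG : Continuous G) (hne : ∀ c, G c ≠ 0) :
    Continuous (fun c => K1 T (G c)) := by
  unfold K1
  have h1 : Continuous (fun c => T (G c)) := T.continuous.comp hG
  exact (Complex.continuous_re.comp (Bf_cont hG h1 h1)).div (hG.norm.pow 4)
    (fun c => pow_ne_zero _ (norm_ne_zero_iff.2 (hne c)))

private theorem K2_cont {H : Type*} [NormedAddCommGroup H] [InnerProductSpace ℂ H]
    (T : H →L[ℂ] H) {G : ℂ × ℂ → H} (hG : Continuous G) (hne : ∀ c, G c ≠ 0) :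
    Continuous (fun c => K2 T (G c)) := by
  unfold K2
  have h1 : Continuous (fun c => T (G c)) := T.continuous.comp hG
  have h2 : Continuous (fun c => T (T (G c))) := T.continuous.comp h1
  exact (((Complex.continuous_re.comp (Bf_cont hG h1 h1)).mul
    (Complex.continuous_re.comp (Bf_cont hG h2 h2))).sub
    ((Bf_cont hG h1 h2).norm.pow 2)).div (hG.norm.pow 8)
    (fun c => pow_ne_zero _ (norm_ne_zero_iff.2 (hne c)))

theorem int_curv : ∃ C : ℝ, ∀ B : ℝ, ∃ δ : ℝ, 0 < δ ∧ δ ≤ 1 / 10 ∧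
    ∀ {H : Type} [NormedAddCommGroup H] [InnerProductSpace ℂ H] [CompleteSpace H]
      (T : H →L[ℂ] H), ‖T‖ ≤ δ → ∀ S : ℂ × ℂ →ₗ[ℝ] (H →L[ℂ] H), Fam T B S →
      (∀ i, ‖S (vv i)‖ ≤ 1) ∧ ∀ y : H, y ≠ 0 →
      (∀ c, 0 ≤ K2 T (Phi S y c)) ∧ ∀ L : ℝ, 1 ≤ L →
      ∫ c in Metric.closedBall (0 : ℂ × ℂ) L, K1 T (Phi S y c) ≤ C * L ^ 3 ∧
      ∫ c in Metric.closedBall (0 : ℂ × ℂ) L, K2 T (Phi S y c) ≤ C * L ^ 2 := by
  obtain ⟨C, hC0, hC⟩ := int_abs
  refine ⟨C, fun B => ?_⟩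
  obtain ⟨δ, hδ0, hδ1, hδ⟩ := fam_pos B
  refine ⟨δ, hδ0, hδ1, ?_⟩
  intro H _ _ _ T hT S hS
  obtain ⟨hn, hG⟩ := hδ T hT S hS
  refine ⟨hn, fun y hy => ?_⟩
  have hP : Continuous (Phi S y) := Phi_cont hS y
  have hne : ∀ c, Phi S y c ≠ 0 := Phi_ne hS hy
  refine ⟨fun c => (hG _ (hne c)).2.2.1, fun L hL => ?_⟩
  refine hC (tht S y) (fun i => tht_contDiff hS hy i) (fun i c => tht_le (hn i) c)
    (fun c => K1 T (Phi S y c)) (fun c => K2 T (Phi S y c)) (K1_cont T hP hne) (K2_cont T hP hne)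
    (fun i j c => ?_) (fun c => ?_) (fun c => (hG _ (hne c)).2.2.1) (fun c => ?_) L hL
  · rw [omg_eq hS hy]
    exact (hG _ (hne c)).1 i j
  · rw [omg_eq hS hy]
    exact (hG _ (hne c)).2.1
  · have h1 := (hG _ (hne c)).2.2.2
    simp only [omg_eq hS hy]
    exact h1

end Pool.Agent.Work.MP_0d53be_an.Full
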