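import Pool.Agent.Work.MP_0d53be_an.Full.Q.Stokes4

/-!
# Q/Pf: positivity of the Pfaffian, finite dimensional form

`H` complex inner product space (`inner ℂ x y` is linear in `y`), `e, φ : H`, `x : Fin 4 → ℂ`,
`y : Fin 4 → H`, `inner ℂ e (y i) = 0`, `0 ≤ κ ≤ 1/100`, `‖φ‖ ≤ κ ‖e‖`, and
`‖x 0 - 1‖, ‖x 1 - I‖, ‖x 2‖, ‖x 3‖ ≤ κ`, `‖y 0‖, ‖y 1‖, ‖y 2 - φ‖, ‖y 3 - I • φ‖ ≤ κ ‖φ‖`.
Put `E i = x i • e + y i`, `a i j = Im (inner ℂ (E i) (E j))`. Then `a i j = ‖e‖² ω' i j + ω'' i j`,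
`ω' i j = Im (conj (x i) x j)`, `ω'' i j = Im (inner (y i) (y j))` (the mixed terms vanish), and
(1) `|a i j| ≤ 2 ‖e‖²`: `‖x i‖ ≤ 1.01`, `‖y i‖ ≤ 1.01 ‖φ‖ ≤ 0.0101 ‖e‖`.
(2) `a 0 1 ≥ ‖e‖²/2`: `ω' 0 1 ≥ 1 - 2κ - κ²`, `|ω'' 0 1| ≤ κ²‖φ‖²`.
(3) `pf a ≥ ‖e‖² ‖φ‖²/2`. `pf (‖e‖² ω' + ω'') = ‖e‖⁴ pf ω' + ‖e‖² M + pf ω''` with
`M = ω'01 ω''23 + ω''01 ω'23 - ω'02 ω''13 - ω''02 ω'13 + ω'03 ω''12 + ω''03 ω'12`. `pf ω' = 0`: for complex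
numbers `Im(x̄₀x₁) Im(x̄₂x₃) - Im(x̄₀x₂) Im(x̄₁x₃) + Im(x̄₀x₃) Im(x̄₁x₂) = 0` (`ring` in the real
and imaginary parts). `ω'01 ≥ 1 - 3κ`. `ω''23 = Im (inner (φ + a) (Iφ + b))`,
`‖a‖, ‖b‖ ≤ κ‖φ‖`, `inner φ (Iφ) = I ‖φ‖²`, so `ω''23 ≥ (1 - 3κ)‖φ‖²`, `|ω''23| ≤ 1.03‖φ‖²`.
`|ω''01| ≤ κ²‖φ‖²`, `|ω'23| ≤ κ²`, `|ω'02|, |ω'03|, |ω'12|, |ω'13| ≤ 2κ`,
`|ω''02|, |ω''03|, |ω''12|, |ω''13| ≤ 2κ‖φ‖²`. So `M ≥ ((1 - 3κ)² - κ⁴ - 16κ²)‖φ‖² ≥ 0.9‖φ‖²` and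
`|pf ω''| ≤ (1.03κ² + 8κ²)‖φ‖⁴ ≤ 10 κ² ‖φ‖⁴ ≤ 10 κ⁴ ‖e‖²‖φ‖² ≤ 0.1 ‖e‖²‖φ‖²`.
-/

set_option autoImplicit false

namespace Pool.Agent.Work.MP_0d53be_an.Full

variable {H : Type*} [NormedAddCommGroup H] [InnerProductSpace ℂ H]

private theorem in_im {e : H} {x : Fin 4 → ℂ} {y : Fin 4 → H} (hy : ∀ i, inner ℂ e (y i) = 0)
    (i j : Fin 4) : (inner ℂ (x i • e + y i) (x j • e + y j) : ℂ).im =
      ‖e‖ ^ 2 * ((x i).re * (x j).im - (x i).im * (x j).re) + (inner ℂ (y i) (y j) : ℂ).im := by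
  have h1 : inner ℂ (y i) e = (0 : ℂ) := inner_eq_zero_symm.mp (hy i)
  rw [inner_add_left, inner_add_right, inner_add_right, inner_smul_left, inner_smul_left,
    inner_smul_right, inner_smul_right, hy j, h1, inner_self_eq_norm_sq_to_K]
  have h2 : ((‖e‖ : ℂ)) ^ 2 = ((‖e‖ ^ 2 : ℝ) : ℂ) := by push_cast; rfl
  simp only [mul_zero, add_zero, zero_add, Complex.add_im]
  have h3 : ((starRingEnd ℂ) (x i) * (x j * ((‖e‖ : ℂ)) ^ 2)).im =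
      ‖e‖ ^ 2 * ((x i).re * (x j).im - (x i).im * (x j).re) := by
    rw [h2]
    simp only [Complex.mul_im, Complex.mul_re, Complex.conj_re, Complex.conj_im,
      Complex.ofReal_re, Complex.ofReal_im]
    ring
  rw [← h3]
  rfl

private theorem w_le (a b : ℂ) : |a.re * b.im - a.im * b.re| ≤ ‖a‖ * ‖b‖ := by
  have h1 : a.re * b.im - a.im * b.re = ((starRingEnd ℂ) a * b).im := by
    simp only [Complex.mul_im, Complex.conj_re, Complex.conj_im]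
    ring
  rw [h1]
  refine (Complex.abs_im_le_norm _).trans ?_
  rw [norm_mul, RCLike.norm_conj]

private theorem v_le (a b : H) : |(inner ℂ a b : ℂ).im| ≤ ‖a‖ * ‖b‖ :=
  (Complex.abs_im_le_norm _).trans (norm_inner_le_norm a b)

private theorem abs_mul_le' {a b A B : ℝ} (ha : |a| ≤ A) (hb : |b| ≤ B) : |a * b| ≤ A * B := by
  rw [abs_mul]
  exact mul_le_mul ha hb (abs_nonneg b) ((abs_nonneg a).trans ha)

private theorem num_pf {E F w01 w02 w03 w12 w13 w23 v01 v02 v03 v12 v13 v23 : ℝ} (hE : 0 ≤ E)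
    (hF : 0 ≤ F) (hFE : F ≤ E) (hw : w01 * w23 - w02 * w13 + w03 * w12 = 0)
    (h01 : 49 / 50 ≤ w01) (h23 : |w23| ≤ 1 / 50) (h02 : |w02| ≤ 1 / 50) (h03 : |w03| ≤ 1 / 50)
    (h12 : |w12| ≤ 1 / 50) (h13 : |w13| ≤ 1 / 50) (g01 : |v01| ≤ F / 50)
    (g23 : 19 / 20 * F ≤ v23) (g23' : |v23| ≤ 11 / 10 * F) (g02 : |v02| ≤ F / 50)
    (g03 : |v03| ≤ F / 50) (g12 : |v12| ≤ F / 50) (g13 : |v13| ≤ F / 50) :
    E * F / 2 ≤ (E * w01 + v01) * (E * w23 + v23) - (E * w02 + v02) * (E * w13 + v13) +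
      (E * w03 + v03) * (E * w12 + v12) := by
  have e1 : (E * w01 + v01) * (E * w23 + v23) - (E * w02 + v02) * (E * w13 + v13) +
      (E * w03 + v03) * (E * w12 + v12) =
      E ^ 2 * (w01 * w23 - w02 * w13 + w03 * w12) +
      E * (w01 * v23 + v01 * w23 - w02 * v13 - v02 * w13 + w03 * v12 + v03 * w12) +
      (v01 * v23 - v02 * v13 + v03 * v12) := by ring
  rw [e1, hw, mul_zero, zero_add]
  have m1 : 49 / 50 * (19 / 20 * F) ≤ w01 * v23 :=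
    mul_le_mul h01 g23 (by positivity) (by linarith)
  have m2 := (abs_le.mp (abs_mul_le' g01 h23)).1
  have m3 := (abs_le.mp (abs_mul_le' h02 g13)).2
  have m4 := (abs_le.mp (abs_mul_le' g02 h13)).2
  have m5 := (abs_le.mp (abs_mul_le' h03 g12)).1
  have m6 := (abs_le.mp (abs_mul_le' g03 h12)).1
  have n1 := (abs_le.mp (abs_mul_le' g01 g23')).1
  have n2 := (abs_le.mp (abs_mul_le' g02 g13)).2
  have n3 := (abs_le.mp (abs_mul_le' g03 g12)).1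
  have hM : 9 / 10 * F ≤ w01 * v23 + v01 * w23 - w02 * v13 - v02 * w13 + w03 * v12 + v03 * w12 := by
    linarith
  have hM2 : E * (9 / 10 * F) ≤
      E * (w01 * v23 + v01 * w23 - w02 * v13 - v02 * w13 + w03 * v12 + v03 * w12) :=
    mul_le_mul_of_nonneg_left hM hE
  have hFF : F * F ≤ E * F := mul_le_mul_of_nonneg_right hFE hF
  have hV : -(1 / 40 * (F * F)) ≤ v01 * v23 - v02 * v13 + v03 * v12 := by
    nlinarith [n1, n2, n3, mul_nonneg hF hF]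
  nlinarith [hM2, hV, hFF, mul_nonneg hE hF]

private theorem re_im_close {a b : ℂ} {κ : ℝ} (h : ‖a - b‖ ≤ κ) :
    |a.re - b.re| ≤ κ ∧ |a.im - b.im| ≤ κ := by
  constructor
  · rw [← Complex.sub_re]
    exact (Complex.abs_re_le_norm _).trans h
  · rw [← Complex.sub_im]
    exact (Complex.abs_im_le_norm _).trans h

theorem pf_pos {e φ : H} {x : Fin 4 → ℂ} {y : Fin 4 → H} {κ : ℝ} (h0 : 0 ≤ κ) (h1 : κ ≤ 1 / 100)
    (hφ : ‖φ‖ ≤ κ * ‖e‖) (hy : ∀ i, inner ℂ e (y i) = 0) (x0 : ‖x 0 - 1‖ ≤ κ)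
    (x1 : ‖x 1 - Complex.I‖ ≤ κ) (x2 : ‖x 2‖ ≤ κ) (x3 : ‖x 3‖ ≤ κ) (y0 : ‖y 0‖ ≤ κ * ‖φ‖)
    (y1 : ‖y 1‖ ≤ κ * ‖φ‖) (y2 : ‖y 2 - φ‖ ≤ κ * ‖φ‖) (y3 : ‖y 3 - Complex.I • φ‖ ≤ κ * ‖φ‖) :
    (∀ i j, |(inner ℂ (x i • e + y i) (x j • e + y j) : ℂ).im| ≤ 2 * ‖e‖ ^ 2) ∧
    ‖e‖ ^ 2 / 2 ≤ (inner ℂ (x 0 • e + y 0) (x 1 • e + y 1) : ℂ).im ∧
    ‖e‖ ^ 2 * ‖φ‖ ^ 2 / 2 ≤
      pf (fun i j => (inner ℂ (x i • e + y i) (x j • e + y j) : ℂ).im) := by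
  set E : ℝ := ‖e‖ with hE
  set Y : ℝ := ‖φ‖ with hY
  have hE0 : 0 ≤ E := norm_nonneg e
  have hY0 : 0 ≤ Y := norm_nonneg φ
  have hYE : Y ≤ 1 / 100 * E := hφ.trans (mul_le_mul_of_nonneg_right h1 hE0)
  -- norms of the coefficients
  have nx0 : ‖x 0‖ ≤ 101 / 100 := by
    have h2 : ‖x 0‖ ≤ ‖x 0 - 1‖ + ‖(1 : ℂ)‖ := by
      have := norm_add_le (x 0 - 1) 1
      rwa [sub_add_cancel] at this
    rw [norm_one] at h2
    linarith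
  have nx1 : ‖x 1‖ ≤ 101 / 100 := by
    have h2 : ‖x 1‖ ≤ ‖x 1 - Complex.I‖ + ‖Complex.I‖ := by
      have := norm_add_le (x 1 - Complex.I) Complex.I
      rwa [sub_add_cancel] at this
    rw [Complex.norm_I] at h2
    linarith
  have nx2 : ‖x 2‖ ≤ 1 / 100 := x2.trans h1
  have nx3 : ‖x 3‖ ≤ 1 / 100 := x3.trans h1
  have ny0 : ‖y 0‖ ≤ 1 / 100 * Y := y0.trans (mul_le_mul_of_nonneg_right h1 hY0)
  have ny1 : ‖y 1‖ ≤ 1 / 100 * Y := y1.trans (mul_le_mul_of_nonneg_right h1 hY0)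
  have d2 : ‖y 2 - φ‖ ≤ 1 / 100 * Y := y2.trans (mul_le_mul_of_nonneg_right h1 hY0)
  have d3 : ‖y 3 - Complex.I • φ‖ ≤ 1 / 100 * Y := y3.trans (mul_le_mul_of_nonneg_right h1 hY0)
  have nI : ‖Complex.I • φ‖ = Y := by rw [norm_smul, Complex.norm_I, one_mul]
  have ny2 : ‖y 2‖ ≤ 101 / 100 * Y := by
    have h2 : ‖y 2‖ ≤ ‖y 2 - φ‖ + ‖φ‖ := by
      have := norm_add_le (y 2 - φ) φ
      rwa [sub_add_cancel] at this
    linarith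
  have ny3 : ‖y 3‖ ≤ 101 / 100 * Y := by
    have h2 : ‖y 3‖ ≤ ‖y 3 - Complex.I • φ‖ + ‖Complex.I • φ‖ := by
      have := norm_add_le (y 3 - Complex.I • φ) (Complex.I • φ)
      rwa [sub_add_cancel] at this
    linarith
  have nx : ∀ i, ‖x i‖ ≤ 101 / 100 := by
    intro i
    fin_cases i
    · exact nx0
    · exact nx1
    · exact nx2.trans (by norm_num)
    · exact nx3.trans (by norm_num)
  have ny : ∀ i, ‖y i‖ ≤ 101 / 100 * Y := by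
    intro i
    fin_cases i
    · exact ny0.trans (by nlinarith)
    · exact ny1.trans (by nlinarith)
    · exact ny2
    · exact ny3
  have hYY : Y ^ 2 ≤ 1 / 10000 * E ^ 2 := by nlinarith
  -- products of norms
  have pw : ∀ {i j : Fin 4} {A B : ℝ}, ‖x i‖ ≤ A → ‖x j‖ ≤ B →
      |(x i).re * (x j).im - (x i).im * (x j).re| ≤ A * B := by
    intro i j A B hi hj
    exact (w_le _ _).trans (mul_le_mul hi hj (norm_nonneg _) ((norm_nonneg _).trans hi))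
  have pv : ∀ {i j : Fin 4} {A B : ℝ}, ‖y i‖ ≤ A → ‖y j‖ ≤ B →
      |(inner ℂ (y i) (y j) : ℂ).im| ≤ A * B := by
    intro i j A B hi hj
    exact (v_le _ _).trans (mul_le_mul hi hj (norm_nonneg _) ((norm_nonneg _).trans hi))
  -- w01
  have w01 : 49 / 50 ≤ (x 0).re * (x 1).im - (x 0).im * (x 1).re := by
    obtain ⟨a1, a2⟩ := re_im_close x0
    obtain ⟨b1, b2⟩ := re_im_close x1
    rw [Complex.one_re] at a1
    rw [Complex.one_im, sub_zero] at a2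
    rw [Complex.I_re, sub_zero] at b1
    rw [Complex.I_im] at b2
    have a1' := abs_le.mp (a1.trans h1)
    have b2' := abs_le.mp (b2.trans h1)
    have c1 := (abs_le.mp (abs_mul_le' (a2.trans h1) (b1.trans h1))).2
    nlinarith [mul_nonneg (by linarith : (0 : ℝ) ≤ (x 0).re - 99 / 100)
      (by linarith : (0 : ℝ) ≤ (x 1).im - 99 / 100)]
  have v01 : |(inner ℂ (y 0) (y 1) : ℂ).im| ≤ 1 / 100 * Y * (1 / 100 * Y) := pv ny0 ny1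
  -- v23
  have v23 : 19 / 20 * Y ^ 2 ≤ (inner ℂ (y 2) (y 3) : ℂ).im := by
    have e1 : inner ℂ (y 2) (y 3) = inner ℂ φ (Complex.I • φ) +
        inner ℂ φ (y 3 - Complex.I • φ) + inner ℂ (y 2 - φ) (y 3) := by
      rw [inner_sub_right, inner_sub_left]
      ring
    have e2 : (inner ℂ φ (Complex.I • φ) : ℂ).im = Y ^ 2 := by
      rw [inner_smul_right, inner_self_eq_norm_sq_to_K, Complex.I_mul_im]
      have h2 : ((‖φ‖ : ℂ)) ^ 2 = ((‖φ‖ ^ 2 : ℝ) : ℂ) := by push_cast; rfl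
      have h3 : (((‖φ‖ : ℂ)) ^ 2).re = ‖φ‖ ^ 2 := by
        rw [h2, Complex.ofReal_re]
      exact h3
    have e3 : |(inner ℂ φ (y 3 - Complex.I • φ) : ℂ).im| ≤ Y * (1 / 100 * Y) :=
      (v_le _ _).trans (mul_le_mul_of_nonneg_left d3 hY0)
    have e4 : |(inner ℂ (y 2 - φ) (y 3) : ℂ).im| ≤ 1 / 100 * Y * (101 / 100 * Y) :=
      (v_le _ _).trans (mul_le_mul d2 ny3 (norm_nonneg _) (by positivity))
    rw [e1, Complex.add_im, Complex.add_im, e2]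
    have f3 := (abs_le.mp e3).1
    have f4 := (abs_le.mp e4).1
    nlinarith [sq_nonneg Y]
  refine ⟨?_, ?_, ?_⟩
  · intro i j
    rw [in_im hy]
    have g1 : |E ^ 2 * ((x i).re * (x j).im - (x i).im * (x j).re)| ≤
        E ^ 2 * (101 / 100 * (101 / 100)) := by
      rw [abs_mul, abs_of_nonneg (sq_nonneg E)]
      exact mul_le_mul_of_nonneg_left (pw (nx i) (nx j)) (sq_nonneg E)
    have g2 := pv (ny i) (ny j)
    refine (abs_add_le _ _).trans ?_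
    nlinarith [sq_nonneg E, sq_nonneg Y]
  · rw [in_im hy]
    have g1 : E ^ 2 * (49 / 50) ≤ E ^ 2 * ((x 0).re * (x 1).im - (x 0).im * (x 1).re) :=
      mul_le_mul_of_nonneg_left w01 (sq_nonneg E)
    have g2 := (abs_le.mp v01).1
    nlinarith [sq_nonneg E, sq_nonneg Y]
  · show E ^ 2 * Y ^ 2 / 2 ≤
      (inner ℂ (x 0 • e + y 0) (x 1 • e + y 1) : ℂ).im *
        (inner ℂ (x 2 • e + y 2) (x 3 • e + y 3) : ℂ).im -
      (inner ℂ (x 0 • e + y 0) (x 2 • e + y 2) : ℂ).im *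
        (inner ℂ (x 1 • e + y 1) (x 3 • e + y 3) : ℂ).im +
      (inner ℂ (x 0 • e + y 0) (x 3 • e + y 3) : ℂ).im *
        (inner ℂ (x 1 • e + y 1) (x 2 • e + y 2) : ℂ).im
    rw [in_im hy, in_im hy, in_im hy, in_im hy, in_im hy, in_im hy]
    refine num_pf (sq_nonneg E) (sq_nonneg Y) (by nlinarith [sq_nonneg E]) (by ring) w01 ?_ ?_ ?_
      ?_ ?_ ?_ v23 ?_ ?_ ?_ ?_ ?_
    · exact (pw nx2 nx3).trans (by norm_num)
    · exact (pw nx0 nx2).trans (by norm_num)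
    · exact (pw nx0 nx3).trans (by norm_num)
    · exact (pw nx1 nx2).trans (by norm_num)
    · exact (pw nx1 nx3).trans (by norm_num)
    · exact v01.trans (by nlinarith [sq_nonneg Y])
    · exact (pv ny2 ny3).trans (by nlinarith [sq_nonneg Y])
    · exact (pv ny0 ny2).trans (by nlinarith [sq_nonneg Y])
    · exact (pv ny0 ny3).trans (by nlinarith [sq_nonneg Y])
    · exact (pv ny1 ny2).trans (by nlinarith [sq_nonneg Y])
    · exact (pv ny1 ny3).trans (by nlinarith [sq_nonneg Y])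

end Pool.Agent.Work.MP_0d53be_an.Full
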