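import Mathlib

/-!
# Q/Stokes4: Stokes' formula in dimension four, with a cutoff

`E` is a finite dimensional real normed space with Haar measure `μ`, `θ : Fin 4 → E → ℝ` of class
`C²`, `χ : E → ℝ` of class `C¹` with compact support, `v : Fin 4 → E`. Put
`ω i j c = D(θ j)(c)(v i) - D(θ i)(c)(v j)`, `D f c u = fderiv ℝ f c u`.

`stokes_two`: `∫ χ ω i j = - ∫ (Dχ(v i) θ j - Dχ(v j) θ i)`: integration by parts
(`integral_mul_fderiv_eq_neg_fderiv_mul_of_integrable`; all products have compact support and are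
continuous, hence integrable).

`stokes_four`: with `T j k l = θ j * ω k l - θ k * ω j l + θ l * ω j k`:
`∫ χ * 2 (ω 0 1 * ω 2 3 - ω 0 2 * ω 1 3 + ω 0 3 * ω 1 2)
 = - ∫ (Dχ(v 0) T 1 2 3 - Dχ(v 1) T 0 2 3 + Dχ(v 2) T 0 1 3 - Dχ(v 3) T 0 1 2)`.
Proof. Each `T j k l` is `C¹` (`θ` is `C²`), so by integration by parts the right side is
`∫ χ (D T₁₂₃ (v 0) - D T₀₂₃ (v 1) + D T₀₁₃ (v 2) - D T₀₁₂ (v 3))`. Product rule and
`D(ω k l)(v i) = D²θ_l(v i, v k) - D²θ_k(v i, v l)` with symmetric second derivatives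
(`second_derivative_symmetric` / `ContDiffAt.isSymmSndFDerivAt`). The coefficient of `θ_1` is
`D ω₂₃(v 0) - D ω₀₃(v 2)·(...)`: in general the terms with second derivatives cancel because
`D ω_{kl}(v i) + D ω_{li}(v k) + D ω_{ik}(v l) = 0` (closedness, from symmetry). With
`a i j = D θ_j (v i)`, `ω i j = a i j - a j i`, the terms without second derivatives are
`(a01 ω23 - a02 ω13 + a03 ω12) - (a10 ω23 - a12 ω03 + a13 ω02) + (a20 ω13 - a21 ω03 + a23 ω01)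
 - (a30 ω12 - a31 ω02 + a32 ω01) = 2 (ω01 ω23 - ω02 ω13 + ω03 ω12)`
(coefficient of `ω23`: `a01 - a10`; of `ω13`: `-a02 + a20`; of `ω12`: `a03 - a30`; of `ω03`:
`a12 - a21`; of `ω02`: `-a13 + a31`; of `ω01`: `a23 - a32`). And the terms with second
derivatives: `θ_1 (D ω23 (v 0) - ... )` where from `T 1 2 3, T 0 2 3, T 0 1 3, T 0 1 2` one gets
`θ_1: D₀ω23 - D₂ω03 + D₃ω02`, `θ_2: -D₀ω13 + D₁ω03 - D₃ω01`, `θ_3: D₀ω12 - D₁ω02 + D₂ω01`,
`θ_0: -D₁ω23 + D₂ω13 - D₃ω12`, all zero by closedness and `ω i j = - ω j i`.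
-/

set_option autoImplicit false

namespace Pool.Agent.Work.MP_0d53be_an.Full

open MeasureTheory

variable {E : Type*} [NormedAddCommGroup E] [NormedSpace ℝ E] [FiniteDimensional ℝ E]
  [MeasurableSpace E] [BorelSpace E]

/-- The curvature of the connection form with components `θ` along the vectors `v`. -/
noncomputable def omg (θ : Fin 4 → E → ℝ) (v : Fin 4 → E) (i j : Fin 4) (c : E) : ℝ :=
  fderiv ℝ (θ j) c (v i) - fderiv ℝ (θ i) c (v j)

/-- The components of `θ ∧ ω`. -/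
noncomputable def tri (θ : Fin 4 → E → ℝ) (v : Fin 4 → E) (j k l : Fin 4) (c : E) : ℝ :=
  θ j c * omg θ v k l c - θ k c * omg θ v j l c + θ l c * omg θ v j k c

/-- The Pfaffian. -/
def pf (a : Fin 4 → Fin 4 → ℝ) : ℝ := a 0 1 * a 2 3 - a 0 2 * a 1 3 + a 0 3 * a 1 2

private theorem st_ibp (μ : Measure E) [μ.IsAddHaarMeasure] {χ g : E → ℝ}
    (hχ : ContDiff ℝ 1 χ) (hs : HasCompactSupport χ) (hg : ContDiff ℝ 1 g) (u : E) :
    Integrable (fun c => χ c * fderiv ℝ g c u) μ ∧ Integrable (fun c => fderiv ℝ χ c u * g c) μ ∧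
    ∫ c, χ c * fderiv ℝ g c u ∂μ = - ∫ c, fderiv ℝ χ c u * g c ∂μ := by
  have c1 : Continuous (fun c => fderiv ℝ χ c u) :=
    (hχ.continuous_fderiv one_ne_zero).clm_apply continuous_const
  have c2 : Continuous (fun c => fderiv ℝ g c u) :=
    (hg.continuous_fderiv one_ne_zero).clm_apply continuous_const
  have i1 : Integrable (fun c => fderiv ℝ χ c u * g c) μ :=
    (c1.mul hg.continuous).integrable_of_hasCompactSupport
      ((hs.fderiv_apply (𝕜 := ℝ) (v := u)).mul_right)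
  have i2 : Integrable (fun c => χ c * fderiv ℝ g c u) μ :=
    (hχ.continuous.mul c2).integrable_of_hasCompactSupport hs.mul_right
  have i3 : Integrable (fun c => χ c * g c) μ :=
    (hχ.continuous.mul hg.continuous).integrable_of_hasCompactSupport hs.mul_right
  exact ⟨i2, i1, integral_mul_fderiv_eq_neg_fderiv_mul_of_integrable i1 i2 i3
    (fun x _ => (hχ.differentiable one_ne_zero).differentiableAt)
    (fun x _ => (hg.differentiable one_ne_zero).differentiableAt)⟩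

theorem stokes_two (μ : Measure E) [μ.IsAddHaarMeasure] {θ : Fin 4 → E → ℝ}
    (hθ : ∀ i, ContDiff ℝ 2 (θ i)) {χ : E → ℝ} (hχ : ContDiff ℝ 1 χ) (hs : HasCompactSupport χ)
    (v : Fin 4 → E) (i j : Fin 4) :
    ∫ c, χ c * omg θ v i j c ∂μ =
      - ∫ c, (fderiv ℝ χ c (v i) * θ j c - fderiv ℝ χ c (v j) * θ i c) ∂μ := by
  obtain ⟨a1, a2, a3⟩ := st_ibp μ hχ hs ((hθ j).of_le one_le_two) (v i)
  obtain ⟨b1, b2, b3⟩ := st_ibp μ hχ hs ((hθ i).of_le one_le_two) (v j)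
  have e : (fun c => χ c * omg θ v i j c) =
      fun c => χ c * fderiv ℝ (θ j) c (v i) - χ c * fderiv ℝ (θ i) c (v j) := by
    funext c
    rw [omg, mul_sub]
  rw [e, integral_sub a1 b1, integral_sub a2 b2, a3, b3]
  ring

private theorem st_D {f : E → ℝ} (hf : ContDiff ℝ 2 f) (u c : E) :
    HasFDerivAt (fun c => fderiv ℝ f c u) ((fderiv ℝ (fderiv ℝ f) c).flip u) c := by
  have h1 : ContDiff ℝ 1 (fderiv ℝ f) := hf.fderiv_right (by norm_num)
  have h2 : HasFDerivAt (fderiv ℝ f) (fderiv ℝ (fderiv ℝ f) c) c :=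
    ((h1.differentiable one_ne_zero) c).hasFDerivAt
  have h3 := h2.clm_apply (hasFDerivAt_const u c)
  refine h3.congr_fderiv ?_
  ext w
  simp

private theorem st_omg {θ : Fin 4 → E → ℝ} (hθ : ∀ i, ContDiff ℝ 2 (θ i)) (v : Fin 4 → E)
    (k l : Fin 4) (c : E) :
    HasFDerivAt (omg θ v k l) ((fderiv ℝ (fderiv ℝ (θ l)) c).flip (v k) -
      (fderiv ℝ (fderiv ℝ (θ k)) c).flip (v l)) c :=
  (st_D (hθ l) (v k) c).fun_sub (st_D (hθ k) (v l) c)

private theorem st_omgC {θ : Fin 4 → E → ℝ} (hθ : ∀ i, ContDiff ℝ 2 (θ i)) (v : Fin 4 → E)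
    (k l : Fin 4) : ContDiff ℝ 1 (omg θ v k l) := by
  have h1 : ∀ i, ContDiff ℝ 1 (fderiv ℝ (θ i)) := fun i => (hθ i).fderiv_right (by norm_num)
  exact ((h1 l).clm_apply contDiff_const).sub ((h1 k).clm_apply contDiff_const)

private theorem st_triC {θ : Fin 4 → E → ℝ} (hθ : ∀ i, ContDiff ℝ 2 (θ i)) (v : Fin 4 → E)
    (j k l : Fin 4) : ContDiff ℝ 1 (tri θ v j k l) := by
  have h1 : ∀ i, ContDiff ℝ 1 (θ i) := fun i => (hθ i).of_le one_le_two
  exact (((h1 j).mul (st_omgC hθ v k l)).sub ((h1 k).mul (st_omgC hθ v j l))).add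
    ((h1 l).mul (st_omgC hθ v j k))

private theorem st_tri {θ : Fin 4 → E → ℝ} (hθ : ∀ i, ContDiff ℝ 2 (θ i)) (v : Fin 4 → E)
    (j k l i : Fin 4) (c : E) :
    fderiv ℝ (tri θ v j k l) c (v i) =
      (θ j c * (fderiv ℝ (fderiv ℝ (θ l)) c (v i) (v k) - fderiv ℝ (fderiv ℝ (θ k)) c (v i) (v l)) +
        omg θ v k l c * fderiv ℝ (θ j) c (v i)) -
      (θ k c * (fderiv ℝ (fderiv ℝ (θ l)) c (v i) (v j) - fderiv ℝ (fderiv ℝ (θ j)) c (v i) (v l)) +
        omg θ v j l c * fderiv ℝ (θ k) c (v i)) +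
      (θ l c * (fderiv ℝ (fderiv ℝ (θ k)) c (v i) (v j) - fderiv ℝ (fderiv ℝ (θ j)) c (v i) (v k)) +
        omg θ v j k c * fderiv ℝ (θ l) c (v i)) := by
  have h1 : ∀ i, HasFDerivAt (θ i) (fderiv ℝ (θ i) c) c := fun i =>
    (((hθ i).differentiable two_ne_zero) c).hasFDerivAt
  have h2 := ((((h1 j).fun_mul (st_omg hθ v k l c)).fun_sub
    ((h1 k).fun_mul (st_omg hθ v j l c))).fun_add ((h1 l).fun_mul (st_omg hθ v j k c)))
  have h3 : HasFDerivAt (tri θ v j k l) _ c := h2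
  rw [h3.fderiv]
  simp only [add_apply, sub_apply,
    smul_apply, ContinuousLinearMap.flip_apply, smul_eq_mul]

private theorem st_int4 {μ : Measure E} {f g h k : E → ℝ} (i1 : Integrable f μ)
    (i2 : Integrable g μ) (i3 : Integrable h μ) (i4 : Integrable k μ) :
    ∫ c, (f c - g c + h c - k c) ∂μ = ∫ c, f c ∂μ - ∫ c, g c ∂μ + ∫ c, h c ∂μ - ∫ c, k c ∂μ := by
  have j1 : Integrable (fun c => f c - g c) μ := i1.sub i2
  have j2 : Integrable (fun c => f c - g c + h c) μ := j1.add i3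
  rw [integral_sub j2 i4, integral_add j1 i3, integral_sub i1 i2]

theorem stokes_four (μ : Measure E) [μ.IsAddHaarMeasure] {θ : Fin 4 → E → ℝ}
    (hθ : ∀ i, ContDiff ℝ 2 (θ i)) {χ : E → ℝ} (hχ : ContDiff ℝ 1 χ) (hs : HasCompactSupport χ)
    (v : Fin 4 → E) :
    ∫ c, χ c * (2 * pf (fun i j => omg θ v i j c)) ∂μ =
      - ∫ c, (fderiv ℝ χ c (v 0) * tri θ v 1 2 3 c - fderiv ℝ χ c (v 1) * tri θ v 0 2 3 c +
        fderiv ℝ χ c (v 2) * tri θ v 0 1 3 c - fderiv ℝ χ c (v 3) * tri θ v 0 1 2 c) ∂μ := by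
  obtain ⟨a1, a2, a3⟩ := st_ibp μ hχ hs (st_triC hθ v 1 2 3) (v 0)
  obtain ⟨b1, b2, b3⟩ := st_ibp μ hχ hs (st_triC hθ v 0 2 3) (v 1)
  obtain ⟨c1, c2, c3⟩ := st_ibp μ hχ hs (st_triC hθ v 0 1 3) (v 2)
  obtain ⟨d1, d2, d3⟩ := st_ibp μ hχ hs (st_triC hθ v 0 1 2) (v 3)
  rw [st_int4 a2 b2 c2 d2]
  have e : (fun c => χ c * (2 * pf (fun i j => omg θ v i j c))) = fun c =>
      χ c * fderiv ℝ (tri θ v 1 2 3) c (v 0) - χ c * fderiv ℝ (tri θ v 0 2 3) c (v 1) +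
        χ c * fderiv ℝ (tri θ v 0 1 3) c (v 2) - χ c * fderiv ℝ (tri θ v 0 1 2) c (v 3) := by
    funext c
    have hsym : ∀ m (i j : Fin 4), fderiv ℝ (fderiv ℝ (θ m)) c (v i) (v j) =
        fderiv ℝ (fderiv ℝ (θ m)) c (v j) (v i) := fun m i j =>
      ((hθ m).contDiffAt.isSymmSndFDerivAt (by simp)).eq (v i) (v j)
    rw [st_tri hθ, st_tri hθ, st_tri hθ, st_tri hθ]
    rw [hsym 3 0 2, hsym 2 0 3, hsym 3 0 1, hsym 1 0 3, hsym 2 0 1, hsym 1 0 2,
      hsym 3 1 2, hsym 2 1 3, hsym 0 1 3, hsym 0 1 2, hsym 0 2 3, hsym 1 2 3]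
    simp only [pf, omg]
    ring
  rw [e, st_int4 a1 b1 c1 d1, a3, b3, c3, d3]
  ring

end Pool.Agent.Work.MP_0d53be_an.Full
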